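import Mathlib
import Pool.Agent.H378R2.M1g
import Pool.Agent.H13R3.PH.A1

/-! The integral formula and the contour shift for the weights `Ph h`
(adapted from `H378R2.M1e`, `M1f`, `M1g`). -/

open MeasureTheory Filter Topology Set

namespace Pool.Agent.H13R3.PH

open DirichletCharacter
open ArithmeticFunction (vonMangoldt)
open Pool.Agent.H378R2.M1 (aT G G_eq term_norm_eq aT_summable norm_sq_lower line_ne_zero
  G_norm_le norm_sq_lower' tail_bound ne_zero_of_re)

noncomputable section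

/-- weighted prime sum twisted by a character -/
def psi (h : ℝ) {f : ℕ} (χ : DirichletCharacter ℂ f) (X : ℝ) : ℂ :=
  ∑ n ∈ Finset.Icc 1 ⌊3 * X⌋₊, ((Ph h (n / X) * vonMangoldt n : ℝ) : ℂ) * χ (n : ZMod f)

variable {h : ℝ}

/-- the integrand -/
def Fi (h : ℝ) {q : ℕ} (χ : DirichletCharacter ℂ q) (X c : ℝ) (n : ℕ) (t : ℝ) : ℂ :=
  LSeries.term (aT χ) ((c : ℂ) + t * Complex.I) n *
    ((X : ℂ) ^ ((c : ℂ) + t * Complex.I) * MP h ((c : ℂ) + t * Complex.I))

lemma Fi_norm {q : ℕ} (χ : DirichletCharacter ℂ q) {X c : ℝ} (hX : 0 < X) (n : ℕ) (t : ℝ) :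
    ‖Fi h χ X c n t‖ = ‖LSeries.term (aT χ) (c : ℂ) n‖ * X ^ c *
      ‖MP h ((c : ℂ) + t * Complex.I)‖ := by
  unfold Fi
  rw [norm_mul, norm_mul, term_norm_eq, Complex.norm_cpow_eq_rpow_re_of_pos hX]
  have : ((c : ℂ) + t * Complex.I).re = c := by simp
  rw [this]
  ring

lemma Fi_continuous {q : ℕ} (χ : DirichletCharacter ℂ q) {X c : ℝ} (hX : 0 < X) (hc : 0 < c)
    (n : ℕ) : Continuous (Fi h χ X c n) := by
  unfold Fi
  have hX' : (X : ℂ) ≠ 0 := by exact_mod_cast hX.ne'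
  refine Continuous.mul ?_ (Continuous.mul ?_ (MP_line_continuous h hc))
  · rcases Nat.eq_zero_or_pos n with h | h
    · subst h
      simp only [LSeries.term_zero]
      exact continuous_const
    · have hn : (n : ℂ) ≠ 0 := by exact_mod_cast h.ne'
      simp_rw [LSeries.term_of_ne_zero h.ne']
      refine Continuous.div continuous_const ?_ ?_
      · exact Continuous.const_cpow (by fun_prop) (Or.inl hn)
      · intro t
        rw [Ne, Complex.cpow_eq_zero_iff]
        tauto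
  · exact Continuous.const_cpow (by fun_prop) (Or.inl hX')

lemma Fi_integrable (hh : 0 < h) (hh1 : h ≤ 1) {q : ℕ} (χ : DirichletCharacter ℂ q) {X c : ℝ}
    (hX : 0 < X) (hc : 1 ≤ c) (hc2 : c ≤ 2) (n : ℕ) : Integrable (Fi h χ X c n) := by
  refine Integrable.mono' ((MP_line_integrable hh hh1 hc hc2).norm.const_mul
    (‖LSeries.term (aT χ) (c : ℂ) n‖ * X ^ c))
    (Fi_continuous χ hX (by linarith) n).aestronglyMeasurable ?_
  exact Eventually.of_forall fun t => (Fi_norm χ hX n t).le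

lemma Fi_integral (hh : 0 < h) (hh1 : h ≤ 1) {q : ℕ} (χ : DirichletCharacter ℂ q) {X c : ℝ}
    (hX : 0 < X) (hc : 1 ≤ c) (hc2 : c ≤ 2) (n : ℕ) :
    (1 / (2 * Real.pi) : ℝ) * ∫ t : ℝ, Fi h χ X c n t =
      ((Ph h (n / X) * vonMangoldt n : ℝ) : ℂ) * χ (n : ZMod q) := by
  rcases Nat.eq_zero_or_pos n with h' | h'
  · subst h'
    unfold Fi
    simp
  · have hn0 : (0 : ℝ) < n := by exact_mod_cast h'
    have hu : 0 < (n : ℝ) / X := by positivity
    have key := Ph_inversion hh hh1 hc hc2 hu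
    have e : ∀ t : ℝ, Fi h χ X c n t = aT χ n *
        ((((n / X : ℝ)) : ℂ) ^ (-((c : ℂ) + t * Complex.I)) * MP h ((c : ℂ) + t * Complex.I)) := by
      intro t
      unfold Fi
      rw [LSeries.term_of_ne_zero h'.ne']
      have hX' : (X : ℂ) ≠ 0 := by exact_mod_cast hX.ne'
      have hn' : (n : ℂ) ≠ 0 := by exact_mod_cast h'.ne'
      have e1 : (((n / X : ℝ)) : ℂ) ^ (-((c : ℂ) + t * Complex.I)) =
          (X : ℂ) ^ ((c : ℂ) + t * Complex.I) / (n : ℂ) ^ ((c : ℂ) + t * Complex.I) := by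
        have e2 : (((n / X : ℝ)) : ℂ) = ((n : ℝ) : ℂ) * ((X⁻¹ : ℝ) : ℂ) := by
          push_cast; rw [div_eq_mul_inv]
        rw [e2, Complex.mul_cpow_ofReal_nonneg hn0.le (by positivity), Complex.cpow_neg,
          Complex.ofReal_natCast, Complex.ofReal_inv]
        have e3 : ((X : ℂ)⁻¹) ^ (-((c : ℂ) + t * Complex.I)) = (X : ℂ) ^ ((c : ℂ) + t * Complex.I) := by
          rw [Complex.cpow_neg, Complex.inv_cpow, inv_inv]
          rw [Complex.arg_ofReal_of_nonneg hX.le]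
          exact Real.pi_pos.ne
        rw [e3]
        field_simp
      rw [e1]
      ring
    simp_rw [e]
    rw [integral_const_mul]
    push_cast at key ⊢
    rw [key]
    unfold aT
    ring

theorem psi_eq (hh : 0 < h) (hh1 : h ≤ 1) {q : ℕ} [NeZero q] (χ : DirichletCharacter ℂ q)
    {X c : ℝ} (hX : 0 < X) (hc : 1 < c) (hc2 : c ≤ 2) :
    psi h χ X = (1 / (2 * Real.pi) : ℝ) * ∫ t : ℝ, G χ ((c : ℂ) + t * Complex.I) *
      ((X : ℂ) ^ ((c : ℂ) + t * Complex.I) * MP h ((c : ℂ) + t * Complex.I)) := by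
  have hsum : HasSum (fun n => ∫ t : ℝ, Fi h χ X c n t) (∫ t : ℝ, ∑' n, Fi h χ X c n t) := by
    refine hasSum_integral_of_summable_integral_norm (Fi_integrable hh hh1 χ hX hc.le hc2) ?_
    simp_rw [Fi_norm χ hX, integral_const_mul]
    exact ((aT_summable χ hc).mul_right _).mul_right _
  have h2 : ∫ t : ℝ, ∑' n, Fi h χ X c n t = ∫ t : ℝ, G χ ((c : ℂ) + t * Complex.I) *
      ((X : ℂ) ^ ((c : ℂ) + t * Complex.I) * MP h ((c : ℂ) + t * Complex.I)) := by
    congr 1
    funext t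
    unfold Fi
    rw [tsum_mul_right]
    congr 1
    rw [← G_eq χ (by simpa using hc)]
    rfl
  rw [← h2]
  have h3 := hsum.mul_left (((1 / (2 * Real.pi) : ℝ)) : ℂ)
  rw [← h3.tsum_eq]
  simp_rw [Fi_integral hh hh1 χ hX hc.le hc2]
  unfold psi
  symm
  apply tsum_eq_sum
  intro n hn
  rw [Finset.mem_Icc, not_and_or] at hn
  have h0 : Ph h (n / X) * vonMangoldt n = 0 := by
    rcases hn with hn | hn
    · have : n = 0 := by omega
      rw [this]; simp
    · have h3X : 3 * X < n := by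
        rw [not_le] at hn
        exact (Nat.floor_lt (by positivity)).mp hn
      rw [Ph_zero_right hh, zero_mul]
      have he : Real.exp h ≤ Real.exp 1 := Real.exp_le_exp.mpr hh1
      refine he.trans ?_
      rw [le_div_iff₀ hX]
      have := Real.exp_one_lt_d9
      nlinarith
  rw [h0]
  simp

/-- the integrand of the contour integral -/
def gI (h : ℝ) {q : ℕ} [NeZero q] (χ : DirichletCharacter ℂ q) (X : ℝ) (s : ℂ) : ℂ :=
  G χ s * ((X : ℂ) ^ s * MP h s)

lemma gI_differentiableAt {q : ℕ} [NeZero q] (χ : DirichletCharacter ℂ q) (hχ : χ ≠ 1) {X : ℝ}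
    (hX : 0 < X) {s : ℂ} (hs : s ≠ 0) (hL : LFunction χ s ≠ 0) :
    DifferentiableAt ℂ (gI h χ X) s := by
  have hd : Differentiable ℂ (LFunction χ) := differentiable_LFunction hχ
  have hd' : DifferentiableAt ℂ (deriv (LFunction χ)) s :=
    (hd.analyticAt s).deriv.differentiableAt
  have hX' : (X : ℂ) ≠ 0 := by exact_mod_cast hX.ne'
  unfold gI G
  refine ((hd'.neg.div (hd s) hL)).mul (DifferentiableAt.mul ?_ (MP_differentiableAt h hs))
  exact DifferentiableAt.const_cpow differentiableAt_id (Or.inl hX')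

lemma gI_norm (hh : 0 < h) (hh1 : h ≤ 1) {q : ℕ} [NeZero q] (χ : DirichletCharacter ℂ q) {X : ℝ}
    (hX : 0 < X) {s : ℂ} (h2 : s.re ≤ 2) :
    ‖gI h χ X s‖ ≤ ‖G χ s‖ * (X ^ s.re * (16 / ‖s‖ ^ 2)) := by
  unfold gI
  rw [norm_mul, norm_mul, Complex.norm_cpow_eq_rpow_re_of_pos hX]
  have := MP_bound hh hh1 h2
  gcongr

theorem contour (hh : 0 < h) (hh1 : h ≤ 1) {q : ℕ} [NeZero q] (χ : DirichletCharacter ℂ q)
    (hχ : χ ≠ 1) {X c δ T M A : ℝ}
    (hX : 1 ≤ X) (hc : 1 < c) (hδ : 0 < δ) (hδ4 : δ ≤ 1 / 4) (hcδ : c ≤ 1 + δ) (hXc : X ^ c ≤ 3 * X)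
    (hT : 1 ≤ T) (hM : 0 ≤ M) (hA : ∑' n : ℕ, vonMangoldt n * (n : ℝ) ^ (-c) ≤ A)
    (hL : ∀ s : ℂ, |s.re - 1| ≤ δ → |s.im| ≤ T → LFunction χ s ≠ 0 ∧
      ‖deriv (LFunction χ) s / LFunction χ s‖ ≤ M) :
    ‖psi h χ X‖ ≤ 16 * (X ^ (1 - δ) * M + X * M / T ^ 2 + X * A / T) := by
  have hX0 : 0 < X := by linarith
  have hc2 : c ≤ 2 := by linarith
  have hT0 : 0 < T := by linarith
  have hpi : 3 < Real.pi := Real.pi_gt_three
  have hpi4 : Real.pi < 4 := Real.pi_lt_four
  have hG : ∀ s : ℂ, |s.re - 1| ≤ δ → |s.im| ≤ T → ‖G χ s‖ ≤ M := by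
    intro s h1 h2
    have := (hL s h1 h2).2
    unfold G
    rwa [neg_div, norm_neg]
  have hA0 : 0 ≤ A := le_trans (tsum_nonneg fun n => mul_nonneg
    ArithmeticFunction.vonMangoldt_nonneg (by positivity)) hA
  rw [psi_eq hh hh1 χ hX0 hc hc2]
  set g : ℝ → ℂ := fun t => gI h χ X ((c : ℂ) + t * Complex.I) with hg
  have hgeq : (∫ t : ℝ, G χ ((c : ℂ) + t * Complex.I) *
      ((X : ℂ) ^ ((c : ℂ) + t * Complex.I) * MP h ((c : ℂ) + t * Complex.I))) = ∫ t, g t := rfl
  rw [hgeq]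
  -- nonvanishing on the line `c`
  have hLc : ∀ t : ℝ, LFunction χ ((c : ℂ) + t * Complex.I) ≠ 0 := by
    intro t
    have h1 : (1 : ℝ) ≤ ((c : ℂ) + t * Complex.I).re := by simp; linarith
    exact LFunction_ne_zero_of_one_le_re χ (Or.inl hχ) h1
  have hgcont : Continuous g := by
    rw [continuous_iff_continuousAt]
    intro t
    have h1 := (gI_differentiableAt (h := h) χ hχ hX0 (line_ne_zero (c := c) (t := t) (by linarith))
      (hLc t)).continuousAt
    exact ContinuousAt.comp (f := fun t : ℝ => (c : ℂ) + t * Complex.I) (g := gI h χ X) h1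
      (by fun_prop)
  have hgb : ∀ t : ℝ, ‖g t‖ ≤ A * (X ^ c * (16 / ‖(c : ℂ) + t * Complex.I‖ ^ 2)) := by
    intro t
    refine (gI_norm hh hh1 χ hX0 (by simpa using hc2)).trans ?_
    have h1 := (G_norm_le χ hc t).trans hA
    have h2 : ((c : ℂ) + t * Complex.I).re = c := by simp
    rw [h2]
    gcongr
  have hgi : Integrable g := by
    refine Integrable.mono' (integrable_inv_one_add_sq.const_mul (A * X ^ c * 16))
      hgcont.aestronglyMeasurable ?_
    refine Eventually.of_forall fun t => (hgb t).trans ?_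
    have h1 := norm_sq_lower (c := c) (t := t) hc.le
    calc A * (X ^ c * (16 / ‖(c : ℂ) + t * Complex.I‖ ^ 2)) ≤ A * (X ^ c * (16 / (1 + t ^ 2))) := by
          gcongr
      _ = _ := by rw [div_eq_mul_inv]; ring
  have htail : ‖∫ t, g t‖ ≤ ‖∫ t in (-T)..T, g t‖ + 2 * (A * X ^ c * 16) / T := by
    refine tail_bound hT0 hgi ?_
    intro t ht
    refine (hgb t).trans ?_
    have h0 : 0 < t ^ 2 := by
      have : 0 < |t| := by linarith
      exact sq_pos_of_ne_zero (abs_pos.mp this)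
    have h1 : t ^ 2 ≤ ‖(c : ℂ) + t * Complex.I‖ ^ 2 := by
      have := norm_sq_lower (c := c) (t := t) hc.le
      linarith
    calc A * (X ^ c * (16 / ‖(c : ℂ) + t * Complex.I‖ ^ 2)) ≤ A * (X ^ c * (16 / t ^ 2)) := by
          gcongr
      _ = _ := by rw [div_eq_mul_inv]; ring
  -- the rectangle
  have hrect := Complex.integral_boundary_rect_eq_zero_of_differentiableOn (gI h χ X)
    (⟨1 - δ, -T⟩ : ℂ) (⟨c, T⟩ : ℂ) (by
      intro s hs
      rw [Complex.mem_reProdIm] at hs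
      simp only at hs
      obtain ⟨h1, h2⟩ := hs
      rw [uIcc_of_le (by linarith)] at h1 h2
      have h3 : |s.re - 1| ≤ δ := by
        rw [abs_le]; constructor <;> linarith [h1.1, h1.2]
      have h4 : |s.im| ≤ T := abs_le.mpr ⟨h2.1, h2.2⟩
      have h5 : s ≠ 0 := ne_zero_of_re (by linarith [h1.1])
      exact (gI_differentiableAt χ hχ hX0 h5 (hL s h3 h4).1).differentiableWithinAt)
  simp only at hrect
  have hv : ‖∫ y in (-T)..T, gI h χ X (((1 - δ : ℝ) : ℂ) + y * Complex.I)‖ ≤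
      M * X ^ (1 - δ) * 32 * Real.pi := by
    have hb : ∀ y ∈ Ioc (-T) T, ‖gI h χ X (((1 - δ : ℝ) : ℂ) + y * Complex.I)‖ ≤
        M * X ^ (1 - δ) * 32 * (1 + y ^ 2)⁻¹ := by
      intro y hy
      have hre : (((1 - δ : ℝ) : ℂ) + y * Complex.I).re = 1 - δ := by simp
      have him : (((1 - δ : ℝ) : ℂ) + y * Complex.I).im = y := by simp
      refine (gI_norm hh hh1 χ hX0 (by rw [hre]; linarith)).trans ?_
      have h1 := hG (((1 - δ : ℝ) : ℂ) + y * Complex.I)
        (by rw [hre]; rw [abs_of_nonpos (by linarith)]; linarith)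
        (by rw [him]; exact abs_le.mpr ⟨hy.1.le, hy.2⟩)
      rw [hre]
      have h2 := norm_sq_lower' (c := 1 - δ) (t := y) (by linarith)
      calc ‖G χ (((1 - δ : ℝ) : ℂ) + y * Complex.I)‖ *
            (X ^ (1 - δ) * (16 / ‖((1 - δ : ℝ) : ℂ) + y * Complex.I‖ ^ 2))
          ≤ M * (X ^ (1 - δ) * (16 / ((1 + y ^ 2) / 2))) := by
            gcongr
        _ = _ := by rw [div_div_eq_mul_div, div_eq_mul_inv]; ring
    rw [intervalIntegral.integral_of_le (by linarith)]
    calc ‖∫ y in Ioc (-T) T, gI h χ X (((1 - δ : ℝ) : ℂ) + y * Complex.I)‖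
        ≤ ∫ y in Ioc (-T) T, M * X ^ (1 - δ) * 32 * (1 + y ^ 2)⁻¹ := by
          refine norm_integral_le_of_norm_le
            ((integrable_inv_one_add_sq.const_mul _).integrableOn) ?_
          exact (ae_restrict_iff' measurableSet_Ioc).mpr (Eventually.of_forall hb)
      _ ≤ ∫ y, M * X ^ (1 - δ) * 32 * (1 + y ^ 2)⁻¹ := by
          refine setIntegral_le_integral (integrable_inv_one_add_sq.const_mul _) ?_
          exact Eventually.of_forall fun y => by positivity
      _ = _ := by rw [integral_const_mul, integral_univ_inv_one_add_sq]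
  have hh' : ∀ T' : ℝ, |T'| = T →
      ‖∫ x in (1 - δ)..c, gI h χ X (x + (T' : ℂ) * Complex.I)‖ ≤ M * (3 * X) * 16 / T ^ 2 * (1 / 2) := by
    intro T' hT'
    have hb : ∀ x ∈ Set.uIoc (1 - δ) c, ‖gI h χ X (x + (T' : ℂ) * Complex.I)‖ ≤
        M * (3 * X) * 16 / T ^ 2 := by
      intro x hx
      rw [uIoc_of_le (by linarith)] at hx
      have hre : ((x : ℂ) + (T' : ℂ) * Complex.I).re = x := by simp
      have him : ((x : ℂ) + (T' : ℂ) * Complex.I).im = T' := by simp
      refine (gI_norm hh hh1 χ hX0 (by rw [hre]; linarith [hx.2])).trans ?_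
      have h1 := hG ((x : ℂ) + (T' : ℂ) * Complex.I)
        (by rw [hre, abs_le]; constructor <;> linarith [hx.1, hx.2])
        (by rw [him, hT'])
      rw [hre]
      have h2 : T ^ 2 ≤ ‖(x : ℂ) + (T' : ℂ) * Complex.I‖ ^ 2 := by
        rw [Complex.sq_norm, Complex.normSq_apply, hre, him, ← hT', sq_abs]
        nlinarith [sq_nonneg x]
      have h3 : X ^ x ≤ 3 * X := (Real.rpow_le_rpow_of_exponent_le hX hx.2).trans hXc
      calc ‖G χ ((x : ℂ) + (T' : ℂ) * Complex.I)‖ *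
            (X ^ x * (16 / ‖(x : ℂ) + (T' : ℂ) * Complex.I‖ ^ 2))
          ≤ M * (3 * X * (16 / T ^ 2)) := by gcongr
        _ = _ := by ring
    refine (intervalIntegral.norm_integral_le_of_norm_le_const hb).trans ?_
    have : |c - (1 - δ)| ≤ 1 / 2 := by
      rw [abs_of_nonneg (by linarith)]; linarith
    gcongr
  have hmain : ‖∫ t in (-T)..T, g t‖ ≤ M * X ^ (1 - δ) * 32 * Real.pi +
      M * (3 * X) * 16 / T ^ 2 := by
    have h1 := hh' T (abs_of_pos hT0)
    have h2 := hh' (-T) (by rw [abs_neg]; exact abs_of_pos hT0)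
    have e : Complex.I • (∫ t in (-T)..T, g t) =
        (∫ x in (1 - δ)..c, gI h χ X (x + (T : ℂ) * Complex.I)) -
        (∫ x in (1 - δ)..c, gI h χ X (x + ((-T : ℝ) : ℂ) * Complex.I)) +
        Complex.I • (∫ y in (-T)..T, gI h χ X (((1 - δ : ℝ) : ℂ) + y * Complex.I)) := by
      have h3 := hrect
      rw [hg]
      linear_combination h3
    have e2 : ‖∫ t in (-T)..T, g t‖ = ‖Complex.I • (∫ t in (-T)..T, g t)‖ := by
      rw [norm_smul, Complex.norm_I, one_mul]
    rw [e2, e]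
    refine (norm_add_le _ _).trans ?_
    have h4 := norm_sub_le (∫ x in (1 - δ)..c, gI h χ X (x + (T : ℂ) * Complex.I))
      (∫ x in (1 - δ)..c, gI h χ X (x + ((-T : ℝ) : ℂ) * Complex.I))
    rw [norm_smul, Complex.norm_I, one_mul]
    linarith
  have hfin : ‖∫ t, g t‖ ≤ M * X ^ (1 - δ) * 32 * Real.pi +
      M * (3 * X) * 16 / T ^ 2 + 2 * (A * (3 * X) * 16) / T := by
    refine htail.trans ?_
    have : 2 * (A * X ^ c * 16) / T ≤ 2 * (A * (3 * X) * 16) / T := by gcongr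
    linarith
  rw [norm_mul, Complex.norm_real, Real.norm_of_nonneg (by positivity)]
  calc 1 / (2 * Real.pi) * ‖∫ t, g t‖ ≤ 1 / (2 * Real.pi) * (M * X ^ (1 - δ) * 32 * Real.pi +
      M * (3 * X) * 16 / T ^ 2 + 2 * (A * (3 * X) * 16) / T) := by gcongr
    _ = 16 * (X ^ (1 - δ) * M) + (3 / Real.pi) * (8 * (X * M / T ^ 2)) +
        (3 / Real.pi) * (16 * (X * A / T)) := by
        field_simp
        ring
    _ ≤ 16 * (X ^ (1 - δ) * M) + 1 * (16 * (X * M / T ^ 2)) + 1 * (16 * (X * A / T)) := by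
        have h3 : 3 / Real.pi ≤ 1 := by
          rw [div_le_one (by positivity)]; exact hpi.le
        have h4 : 0 ≤ X * M / T ^ 2 := by positivity
        have h5 : 0 ≤ X * A / T := by positivity
        have h6 : 8 * (X * M / T ^ 2) ≤ 16 * (X * M / T ^ 2) := by linarith
        gcongr
    _ = _ := by ring

end

end Pool.Agent.H13R3.PH
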