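import Mathlib
import Pool.Agent.H378R2.M1
import Pool.Agent.H13R3.PH.A2

/-! Characters modulo powers of two: no exceptional zeros. -/

open MeasureTheory Filter Topology Set

namespace Pool.Agent.H13R3.PH

open DirichletCharacter
open ArithmeticFunction (vonMangoldt)

noncomputable section

/-- numbers `≡ 1 mod 8` are squares modulo every power of two -/
lemma exists_sq_two_pow (m : ℕ) (hm : 3 ≤ m) (n : ℤ) (hn : (8 : ℤ) ∣ n - 1) :
    ∃ v : ℤ, ((2 : ℤ) ^ m) ∣ v ^ 2 - n := by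
  induction m, hm using Nat.le_induction with
  | base =>
    refine ⟨1, ?_⟩
    have : (1 : ℤ) ^ 2 - n = -(n - 1) := by ring
    rw [this]
    exact (dvd_neg.mpr (by norm_num; exact hn))
  | succ m hm ih =>
    obtain ⟨v, c, hc⟩ := ih
    have hodd : Odd v := by
      by_contra h
      rw [Int.not_odd_iff_even] at h
      obtain ⟨w, hw⟩ := h
      obtain ⟨d, hd⟩ := hn
      have h2 : (2 : ℤ) ∣ 2 ^ m := dvd_pow_self 2 (by omega)
      obtain ⟨e, he⟩ := h2
      have : v ^ 2 - n = 2 * (e * c) := by rw [hc, he]; ring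
      have h3 : n = 8 * d + 1 := by linarith
      rw [hw, h3] at this
      have h4 : (2 : ℤ) * (2 * w ^ 2 - 4 * d - e * c) = 1 := by linarith [this]
      omega
    rcases Int.even_or_odd c with hce | hco
    · obtain ⟨c', hc'⟩ := hce
      refine ⟨v, c', ?_⟩
      rw [hc, hc']; ring
    · obtain ⟨c', hc'⟩ := hco
      obtain ⟨v', hv'⟩ := hodd
      obtain ⟨k, rfl⟩ : ∃ k, m = k + 3 := ⟨m - 3, by omega⟩
      refine ⟨v + 2 ^ (k + 2), c' + v' + 1 + 2 ^ k, ?_⟩
      have e : (v + 2 ^ (k + 2)) ^ 2 - n = (v ^ 2 - n) + 2 * v * 2 ^ (k + 2) + (2 ^ (k + 2)) ^ 2 := by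
        ring
      rw [e, hc, hc', hv']
      ring

/-- a real character modulo `2 ^ m` is induced from modulus `8` -/
lemma real_char_two_pow {m : ℕ} (hm : 3 ≤ m) (χ : DirichletCharacter ℂ (2 ^ m)) (hχ : χ ^ 2 = 1) :
    ∃ ψ : DirichletCharacter ℂ 8, ∀ n : ℕ, χ (n : ZMod (2 ^ m)) = ψ (n : ZMod 8) := by
  have h8 : 8 ∣ 2 ^ m := by
    have : (8 : ℕ) = 2 ^ 3 := by norm_num
    rw [this]; exact pow_dvd_pow 2 hm
  have hf : χ.FactorsThrough 8 := by
    rw [factorsThrough_iff_ker_unitsMap h8]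
    intro u hu
    rw [MonoidHom.mem_ker] at hu ⊢
    -- lift `u` to an integer
    obtain ⟨n, hn⟩ := ZMod.intCast_surjective (u : ZMod (2 ^ m))
    have h1 : ((n : ℤ) : ZMod 8) = 1 := by
      have h2 : ((ZMod.unitsMap h8 u : (ZMod 8)ˣ) : ZMod 8) = 1 := by rw [hu]; rfl
      rw [ZMod.unitsMap_def, Units.coe_map] at h2
      rw [← hn] at h2
      simpa using h2
    have h3 : (8 : ℤ) ∣ n - 1 := by
      have := (ZMod.intCast_eq_intCast_iff_dvd_sub 1 n 8).mp (by rw [h1]; simp)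
      simpa using this
    obtain ⟨v, hv⟩ := exists_sq_two_pow m hm n h3
    have h4 : ((v : ℤ) : ZMod (2 ^ m)) ^ 2 = (u : ZMod (2 ^ m)) := by
      rw [← hn]
      have := (ZMod.intCast_eq_intCast_iff_dvd_sub n (v ^ 2) (2 ^ m)).mpr (by push_cast; exact hv)
      rw [this]; push_cast; rfl
    have h5 : χ (u : ZMod (2 ^ m)) = 1 := by
      rw [← h4, map_pow, ← MulChar.pow_apply' χ (by norm_num), hχ]
      have hu' : IsUnit ((v : ℤ) : ZMod (2 ^ m)) := by
        have : IsUnit (((v : ℤ) : ZMod (2 ^ m)) ^ 2) := by rw [h4]; exact u.isUnit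
        exact (isUnit_pow_iff (by norm_num)).mp this
      exact MulChar.one_apply hu'
    apply Units.ext
    rw [MulChar.coe_toUnitHom, h5]
    rfl
  obtain ⟨hd, ψ, hψ⟩ := hf
  refine ⟨ψ, fun n => ?_⟩
  by_cases hn : Nat.Coprime n (2 ^ m)
  · have hc : IsCoprime (n : ℤ) ((2 ^ m : ℕ) : ℤ) := Nat.isCoprime_iff_coprime.mpr hn
    have e1 := changeLevel_eq_cast_of_dvd' ψ hd hc
    rw [← hψ] at e1
    simpa using e1
  · have e0 : χ (n : ZMod (2 ^ m)) = 0 := by
      apply MulChar.map_nonunit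
      rwa [ZMod.isUnit_iff_coprime]
    have e1 : ψ (n : ZMod 8) = 0 := by
      apply MulChar.map_nonunit
      rw [ZMod.isUnit_iff_coprime]
      intro h
      apply hn
      have : Nat.Coprime n (2 ^ 3) := by simpa using h
      exact Nat.Coprime.pow_right m ((Nat.coprime_pow_right_iff (by norm_num) n 2).mp this)
    rw [e0, e1]

/-- uniform lower bound for real characters modulo powers of two -/
lemma real_lower : ∃ c : ℝ, 0 < c ∧ ∀ (m : ℕ) (χ : DirichletCharacter ℂ (2 ^ m)), χ ≠ 1 →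
    χ ^ 2 = 1 → ∀ s : ℝ, 1 < s → s ≤ 2 → c ≤ ‖LFunction χ (s : ℂ)‖ := by
  obtain ⟨c, hc, h⟩ := Pool.Agent.Erdos456.fixed_lower_le 8
  refine ⟨c, hc, fun m χ hχ hsq s hs1 hs2 => ?_⟩
  by_cases hm : 3 ≤ m
  · obtain ⟨ψ, hψ⟩ := real_char_two_pow hm χ hsq
    have hψ1 : ψ ≠ 1 := by
      intro h1
      apply hχ
      ext u
      obtain ⟨n, hn⟩ := ZMod.natCast_zmod_surjective (u : ZMod (2 ^ m))
      rw [← hn, hψ, h1, hn, MulChar.one_apply u.isUnit]
      apply MulChar.one_apply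
      have hu : IsUnit (n : ZMod (2 ^ m)) := by rw [hn]; exact u.isUnit
      rw [ZMod.isUnit_iff_coprime] at hu ⊢
      have : Nat.Coprime n 2 := (Nat.coprime_pow_right_iff (by omega) n 2).mp hu
      have h3 := Nat.Coprime.pow_right 3 this
      simpa using h3
    have e : LFunction χ (s : ℂ) = LFunction ψ (s : ℂ) := by
      rw [LFunction_eq_LSeries χ (by simpa using hs1), LFunction_eq_LSeries ψ (by simpa using hs1)]
      congr 1
      funext n
      exact hψ n
    rw [e]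
    exact h 8 le_rfl ψ hψ1 s hs1.le hs2
  · refine h (2 ^ m) ?_ χ hχ s hs1.le hs2
    have : 2 ^ m ≤ 2 ^ 3 := Nat.pow_le_pow_right (by norm_num) (by omega)
    simpa using this

/-- all nonprincipal characters modulo powers of two -/
theorem psi_two_pow : ∃ X0 : ℝ, ∀ X : ℝ, X0 ≤ X → ∀ h : ℝ, 0 < h → h ≤ 1 →
    ∀ m : ℕ, ((2 ^ m : ℕ) : ℝ) ≤ Real.exp ((Real.log (Real.log X)) ^ 6) →
      ∀ χ : DirichletCharacter ℂ (2 ^ m), χ ≠ 1 →
        ‖psi h χ X‖ ≤ X * Real.exp (-(Real.log (Real.log X)) ^ 7) := by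
  obtain ⟨d1, d, κ, hd1, hd1', hd0, hd2, hκ, hA', -⟩ := Pool.Agent.H378R2.M1.nzr
  obtain ⟨c8, hc8, hreal⟩ := real_lower
  obtain ⟨C, hC1, hC⟩ := Pool.Agent.H378R2.M1.vM_sum_bound
  obtain ⟨a, ha⟩ := Pool.Agent.H378R2.M1.exp_dominates (48 * 2 ^ 19 / d + 48 * C) 151
  refine ⟨Real.exp (Real.exp (max (max a (κ / c8 + 1)) 4)), fun X hX h hh hh1 m hfle χ hχ1 => ?_⟩
  set lam := Real.log (Real.log X) with hlam
  have hXpos : 0 < X := (Real.exp_pos _).trans_le hX
  have hL : Real.exp (max (max a (κ / c8 + 1)) 4) ≤ Real.log X := by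
    rw [Real.le_log_iff_exp_le hXpos]; exact hX
  have hLpos : 0 < Real.log X := (Real.exp_pos _).trans_le hL
  have hlam1 : max (max a (κ / c8 + 1)) 4 ≤ lam := by
    rw [hlam, Real.le_log_iff_exp_le hLpos]; exact hL
  have hlam4 : 4 ≤ lam := (le_max_right _ _).trans hlam1
  have hlama : a ≤ lam := ((le_max_left _ _).trans (le_max_left _ _)).trans hlam1
  have hlaml : κ / c8 + 1 ≤ lam := ((le_max_right _ _).trans (le_max_left _ _)).trans hlam1
  have hexplam : Real.exp lam = Real.log X := by rw [hlam, Real.exp_log hLpos]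
  have hdom := ha lam hlama
  have hlam0 : 0 < lam := by linarith
  have hlam1' : 1 ≤ lam := by linarith
  -- the parameter `l`
  set l : ℝ := 2 * lam ^ 8 with hl
  have hl_ge : lam ≤ l := by
    have : lam ≤ lam ^ 8 := le_self_pow₀ hlam1' (by norm_num)
    rw [hl]; linarith [pow_pos hlam0 8]
  have hl4 : 4 ≤ l := hlam4.trans hl_ge
  have hf0 : (0 : ℝ) < ((2 ^ m : ℕ) : ℝ) := by positivity
  have hlogf : Real.log ((2 ^ m : ℕ) : ℝ) ≤ l := by
    have h1 : Real.log ((2 ^ m : ℕ) : ℝ) ≤ lam ^ 6 := by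
      rw [Real.log_le_iff_le_exp hf0]; exact hfle
    have h2 : lam ^ 6 ≤ lam ^ 8 := pow_le_pow_right₀ hlam1' (by norm_num)
    rw [hl]; linarith [pow_pos hlam0 8]
  have hlpow : l ^ 18 = 2 ^ 18 * lam ^ 144 := by rw [hl]; ring
  have hlpos : 0 < l := by linarith
  have hl1 : 1 ≤ l := by linarith
  have hexc : χ ^ 2 = 1 → κ / l ^ 7 ≤ ‖LFunction χ ((1 + d1 / l ^ 9 : ℝ) : ℂ)‖ := by
    intro hsq
    have hl9 : 1 ≤ l ^ 9 := one_le_pow₀ hl1
    have hp9 : d1 / l ^ 9 ≤ 1 / 2 := (div_le_self hd1.le hl9).trans hd1'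
    have hp0 : 0 < d1 / l ^ 9 := by positivity
    refine le_trans ?_ (hreal m χ hχ1 hsq (1 + d1 / l ^ 9) (by linarith) (by linarith))
    have h1 : κ / c8 < l := by linarith
    rw [div_lt_iff₀ hc8] at h1
    rw [div_le_iff₀ (by positivity)]
    have h2 : l ≤ l ^ 7 := le_self_pow₀ hl1 (by norm_num)
    calc κ ≤ l * c8 := h1.le
      _ ≤ l ^ 7 * c8 := by gcongr
      _ = c8 * l ^ 7 := by ring
  set δ : ℝ := d / l ^ 18 with hδ
  set M : ℝ := l ^ 18 / d with hM
  set T : ℝ := Real.exp (lam ^ 8) with hT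
  have hδ0 : 0 < δ := by positivity
  have hM0 : 0 ≤ M := by positivity
  have hδM : δ * M = 1 := by
    rw [hδ, hM]; field_simp
  have hT3 : 3 ≤ T := by
    rw [hT]
    have h1 := Real.add_one_le_exp (lam ^ 8)
    have h2 : lam ≤ lam ^ 8 := le_self_pow₀ hlam1' (by norm_num)
    linarith
  have hp144 : lam ^ 144 ≤ lam ^ 151 := pow_le_pow_right₀ hlam1' (by norm_num)
  have hp7 : lam ≤ lam ^ 7 := le_self_pow₀ hlam1' (by norm_num)
  have hp151 : 1 ≤ lam ^ 151 := one_le_pow₀ hlam1'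
  -- `48 M ≤ e^λ`
  have hM48 : 48 * M ≤ Real.exp lam := by
    refine le_trans ?_ hdom
    rw [hM, hlpow]
    have h1 : 48 * (2 ^ 18 * lam ^ 144 / d) = (48 * 2 ^ 18 / d) * lam ^ 144 := by ring
    rw [h1]
    have h2 : 48 * 2 ^ 18 / d ≤ 48 * 2 ^ 19 / d + 48 * C := by
      have : 48 * 2 ^ 18 / d ≤ 48 * 2 ^ 19 / d := by gcongr <;> norm_num
      linarith
    gcongr
  have hC48 : 48 * C ≤ Real.exp lam := by
    refine le_trans ?_ hdom
    have h1 : 48 * C * 1 ≤ (48 * 2 ^ 19 / d + 48 * C) * lam ^ 151 := by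
      gcongr
      have : 0 < 48 * 2 ^ 19 / d := by positivity
      linarith
    linarith
  -- `λ + λ^7 ≤ δ e^λ`
  have hmain1 : lam + lam ^ 7 ≤ δ * Real.exp lam := by
    have h1 : M * (lam + lam ^ 7) ≤ Real.exp lam := by
      refine le_trans ?_ hdom
      rw [hM, hlpow]
      calc 2 ^ 18 * lam ^ 144 / d * (lam + lam ^ 7) ≤ 2 ^ 18 * lam ^ 144 / d * (lam ^ 7 + lam ^ 7) := by
            gcongr
        _ = (2 ^ 19 / d) * lam ^ 151 := by ring
        _ ≤ (48 * 2 ^ 19 / d + 48 * C) * lam ^ 151 := by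
            gcongr
            have : 2 ^ 19 / d ≤ 48 * 2 ^ 19 / d := by
              have h9 : 0 < 2 ^ 19 / d := by positivity
              have h10 : 48 * 2 ^ 19 / d = 48 * (2 ^ 19 / d) := by ring
              linarith
            linarith
    calc lam + lam ^ 7 = δ * (M * (lam + lam ^ 7)) := by rw [← mul_assoc, hδM, one_mul]
      _ ≤ δ * Real.exp lam := by gcongr
  have hδ4 : δ ≤ 1 / 4 := by
    rw [hδ, div_le_iff₀ (by positivity)]
    have h2 : (2 : ℝ) ≤ l := by linarith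
    have h3 : (2 : ℝ) ^ 18 ≤ l ^ 18 := by gcongr
    norm_num at h3
    linarith
  set c : ℝ := 1 + 1 / Real.log X with hc
  have hc1 : 1 < c := by
    rw [hc]
    have : 0 < 1 / Real.log X := by positivity
    linarith
  have hcδ : c ≤ 1 + δ := by
    rw [hc, ← hexplam]
    have h1 : 1 ≤ δ * Real.exp lam := by
      have := hp7
      linarith
    have h2 : 1 / Real.exp lam ≤ δ := by
      rw [div_le_iff₀ (Real.exp_pos _)]; exact h1
    linarith
  have hX1 : 1 ≤ X := by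
    have : 0 ≤ Real.exp (max (max a (κ / c8 + 1)) 4) := (Real.exp_pos _).le
    exact (Real.one_le_exp this).trans hX
  have hXc : X ^ c ≤ 3 * X := by
    rw [hc, Real.rpow_add hXpos, Real.rpow_one]
    have h1 : X ^ (1 / Real.log X) = Real.exp 1 := by
      rw [Real.rpow_def_of_pos hXpos, mul_one_div_cancel hLpos.ne']
    rw [h1]
    have := Real.exp_one_lt_d9
    nlinarith
  have hA : ∑' n : ℕ, ArithmeticFunction.vonMangoldt n * (n : ℝ) ^ (-c) ≤
      C * Real.exp (2 * lam) := by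
    refine (hC c hc1 (by linarith)).trans (le_of_eq ?_)
    have h1 : c - 1 = 1 / Real.log X := by rw [hc]; ring
    have h2 : Real.exp (2 * lam) = (Real.log X) ^ 2 := by
      rw [← hexplam, ← Real.exp_nat_mul]; norm_num
    rw [h1, h2]
    field_simp
  have hcont := contour hh hh1 χ hχ1 hX1 hc1 hδ0 hδ4 hcδ hXc (by linarith : (1 : ℝ) ≤ T) hM0 hA (by
    intro s h1 h2
    refine hA' l hl4 (2 ^ m) χ hχ1 hlogf hexc s h1 ?_
    have h3 : 2 * |s.im| + 3 ≤ Real.exp l := by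
      have h4 : Real.exp l = T * T := by
        rw [hT, hl, ← Real.exp_add]; congr 1; ring
      rw [h4]
      nlinarith
    rw [Real.log_le_iff_le_exp (by positivity)]
    exact h3)
  refine hcont.trans ?_
  -- the three terms
  have hXδ : X ^ (1 - δ) = X * Real.exp (-(δ * Real.exp lam)) := by
    rw [sub_eq_add_neg, Real.rpow_add hXpos, Real.rpow_one, Real.rpow_def_of_pos hXpos, hexplam]
    congr 2; ring
  have hpow : lam + lam ^ 7 ≤ 2 * lam ^ 8 ∧ 3 * lam + lam ^ 7 ≤ lam ^ 8 := by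
    have h1 : lam ^ 8 = lam * lam ^ 7 := by ring
    have h2 : 4 * lam ^ 7 ≤ lam * lam ^ 7 := by gcongr
    constructor <;> linarith
  have t1 : 48 * (X ^ (1 - δ) * M) ≤ X * Real.exp (-lam ^ 7) := by
    rw [hXδ]
    calc 48 * (X * Real.exp (-(δ * Real.exp lam)) * M)
        = X * ((48 * M) * Real.exp (-(δ * Real.exp lam))) := by ring
      _ ≤ X * (Real.exp lam * Real.exp (-(lam + lam ^ 7))) := by
          gcongr
      _ = _ := by rw [← Real.exp_add]; congr 2; ring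
  have hTT : 1 / T ^ 2 = Real.exp (-(2 * lam ^ 8)) := by
    rw [hT, ← Real.exp_nat_mul, Real.exp_neg, one_div]; norm_num
  have t2 : 48 * (X * M / T ^ 2) ≤ X * Real.exp (-lam ^ 7) := by
    calc 48 * (X * M / T ^ 2) = X * ((48 * M) * (1 / T ^ 2)) := by ring
      _ = X * ((48 * M) * Real.exp (-(2 * lam ^ 8))) := by rw [hTT]
      _ ≤ X * (Real.exp lam * Real.exp (-(lam + lam ^ 7))) := by
          gcongr
          exact hpow.1
      _ = _ := by rw [← Real.exp_add]; congr 2; ring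
  have hT1 : 1 / T = Real.exp (-(lam ^ 8)) := by
    rw [hT, Real.exp_neg, one_div]
  have t3 : 48 * (X * (C * Real.exp (2 * lam)) / T) ≤ X * Real.exp (-lam ^ 7) := by
    calc 48 * (X * (C * Real.exp (2 * lam)) / T) = X * ((48 * C) * Real.exp (2 * lam) * (1 / T)) := by
          ring
      _ = X * ((48 * C) * Real.exp (2 * lam) * Real.exp (-(lam ^ 8))) := by rw [hT1]
      _ ≤ X * (Real.exp lam * Real.exp (2 * lam) * Real.exp (-(3 * lam + lam ^ 7))) := by
          gcongr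
          exact hpow.2
      _ = _ := by rw [← Real.exp_add, ← Real.exp_add]; congr 2; ring
  linarith

end

end Pool.Agent.H13R3.PH
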