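import Mathlib
import Pool.Agent.H13R3.PH.A3

/-! Weighted prime sums in residue classes modulo powers of two. -/

open Finset

namespace Pool.Agent.H13R3.PH

open DirichletCharacter (sum_char_inv_mul_char_eq)
open ArithmeticFunction (vonMangoldt)

noncomputable section

/-- weighted sum over a residue class -/
def Scl (h X : ℝ) (m a : ℕ) : ℝ :=
  ∑ n ∈ (Icc 1 ⌊3 * X⌋₊).filter (fun n => n ≡ a [MOD 2 ^ m]), Ph h (n / X) * vonMangoldt n

/-- weighted sum over odd numbers -/
def Sodd (h X : ℝ) : ℝ :=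
  ∑ n ∈ (Icc 1 ⌊3 * X⌋₊).filter (fun n => Odd n), Ph h (n / X) * vonMangoldt n

lemma w_nonneg (h X : ℝ) (n : ℕ) : 0 ≤ Ph h (n / X) * vonMangoldt n :=
  mul_nonneg (Ph_nonneg _ _) ArithmeticFunction.vonMangoldt_nonneg

lemma isUnit_of_odd {m n : ℕ} (hn : Odd n) : IsUnit (n : ZMod (2 ^ m)) := by
  rw [ZMod.isUnit_iff_coprime]
  exact Nat.Coprime.pow_right m (Nat.coprime_two_right.mpr hn)

theorem class_identity (h X : ℝ) (m a : ℕ) (ha : Odd a) :
    (((Nat.totient (2 ^ m) : ℕ) : ℂ) * (Scl h X m a : ℂ)) =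
      ∑ χ : DirichletCharacter ℂ (2 ^ m), χ ((a : ZMod (2 ^ m))⁻¹) * psi h χ X := by
  unfold psi Scl
  simp_rw [mul_sum]
  rw [sum_comm, sum_filter, Complex.ofReal_sum, mul_sum]
  apply sum_congr rfl
  intro n _
  have h1 := sum_char_inv_mul_char_eq (R := ℂ) (isUnit_of_odd (m := m) ha) (n : ZMod (2 ^ m))
  have h2 : ∑ χ : DirichletCharacter ℂ (2 ^ m), χ ((a : ZMod (2 ^ m))⁻¹) *
      (((Ph h (n / X) * vonMangoldt n : ℝ) : ℂ) * χ (n : ZMod (2 ^ m))) =
      ((Ph h (n / X) * vonMangoldt n : ℝ) : ℂ) *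
        ∑ χ : DirichletCharacter ℂ (2 ^ m), χ ((a : ZMod (2 ^ m))⁻¹) * χ (n : ZMod (2 ^ m)) := by
    rw [mul_sum]
    apply sum_congr rfl
    intro χ _
    ring
  rw [h2, h1]
  by_cases hn : n ≡ a [MOD 2 ^ m]
  · rw [if_pos hn, if_pos]
    · ring
    · exact ((ZMod.natCast_eq_natCast_iff _ _ _).mpr hn).symm
  · rw [if_neg hn, if_neg]
    · simp
    · intro h3
      exact hn ((ZMod.natCast_eq_natCast_iff _ _ _).mp h3.symm)

theorem class_lower (h X : ℝ) (m a : ℕ) (ha : Odd a) {B : ℝ} (hB0 : 0 ≤ B)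
    (hB : ∀ χ : DirichletCharacter ℂ (2 ^ m), χ ≠ 1 → ‖psi h χ X‖ ≤ B) :
    Sodd h X - (Nat.totient (2 ^ m) : ℝ) * B ≤ (Nat.totient (2 ^ m) : ℝ) * Scl h X m a := by
  classical
  have key := congrArg Complex.re (class_identity h X m a ha)
  have e1 : (((Nat.totient (2 ^ m) : ℕ) : ℂ) * (Scl h X m a : ℂ)).re =
      (Nat.totient (2 ^ m) : ℝ) * Scl h X m a := by
    have : (((Nat.totient (2 ^ m) : ℕ) : ℂ) * (Scl h X m a : ℂ)) =
      (((Nat.totient (2 ^ m) : ℝ) * Scl h X m a : ℝ) : ℂ) := by push_cast; rfl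
    rw [this, Complex.ofReal_re]
  rw [e1] at key
  rw [key, ← add_sum_erase univ _ (mem_univ (1 : DirichletCharacter ℂ (2 ^ m))), Complex.add_re]
  have hinv : IsUnit ((a : ZMod (2 ^ m))⁻¹) := by
    obtain ⟨u, hu⟩ := isUnit_of_odd (m := m) ha
    rw [← hu, ZMod.inv_coe_unit]
    exact Units.isUnit _
  have h1 : Sodd h X ≤ ((1 : DirichletCharacter ℂ (2 ^ m)) ((a : ZMod (2 ^ m))⁻¹) *
      psi h (1 : DirichletCharacter ℂ (2 ^ m)) X).re := by
    rw [MulChar.one_apply hinv, one_mul]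
    unfold psi Sodd
    rw [Complex.re_sum, sum_filter]
    apply sum_le_sum
    intro n _
    split_ifs with ho
    · rw [MulChar.one_apply (isUnit_of_odd ho), mul_one, Complex.ofReal_re]
    · by_cases hu : IsUnit (n : ZMod (2 ^ m))
      · rw [MulChar.one_apply hu, mul_one, Complex.ofReal_re]
        exact w_nonneg h X n
      · rw [MulChar.map_nonunit _ hu, mul_zero, Complex.zero_re]
  have h2 : -((Nat.totient (2 ^ m) : ℝ) * B) ≤
      (∑ χ ∈ univ.erase (1 : DirichletCharacter ℂ (2 ^ m)),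
        χ ((a : ZMod (2 ^ m))⁻¹) * psi h χ X).re := by
    have h3 : ‖∑ χ ∈ univ.erase (1 : DirichletCharacter ℂ (2 ^ m)),
        χ ((a : ZMod (2 ^ m))⁻¹) * psi h χ X‖ ≤ (Nat.totient (2 ^ m) : ℝ) * B := by
      refine (norm_sum_le _ _).trans ?_
      calc ∑ χ ∈ univ.erase (1 : DirichletCharacter ℂ (2 ^ m)),
            ‖χ ((a : ZMod (2 ^ m))⁻¹) * psi h χ X‖
          ≤ ∑ χ ∈ univ.erase (1 : DirichletCharacter ℂ (2 ^ m)), B := by
            apply sum_le_sum
            intro χ hχ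
            rw [norm_mul]
            have h4 : ‖χ ((a : ZMod (2 ^ m))⁻¹)‖ ≤ 1 := χ.norm_le_one _
            have h5 := hB χ (ne_of_mem_erase hχ)
            calc _ ≤ 1 * B := mul_le_mul h4 h5 (norm_nonneg _) zero_le_one
              _ = B := one_mul B
        _ = ((univ.erase (1 : DirichletCharacter ℂ (2 ^ m))).card : ℝ) * B := by
            rw [sum_const, nsmul_eq_mul]
        _ ≤ (Nat.totient (2 ^ m) : ℝ) * B := by
            apply mul_le_mul_of_nonneg_right _ hB0
            have h4 := DirichletCharacter.card_eq_totient_of_hasEnoughRootsOfUnity ℂ (2 ^ m)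
            rw [← h4, Nat.card_eq_fintype_card]
            exact_mod_cast (card_le_card (erase_subset _ _)).trans (le_of_eq rfl)
    have h4 := Complex.abs_re_le_norm (∑ χ ∈ univ.erase (1 : DirichletCharacter ℂ (2 ^ m)),
        χ ((a : ZMod (2 ^ m))⁻¹) * psi h χ X)
    linarith [(abs_le.mp (h4.trans h3)).1]
  linarith

/-- if the weighted sum over a class is larger than the contribution of prime powers, the class
contains a prime in the window -/
theorem exists_prime_of_class {h X : ℝ} (hh : 0 < h) (hh1 : h ≤ 1) (hX : 1 ≤ X) {m a : ℕ}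
    (hS : (Chebyshev.psi (3 * X) - Chebyshev.theta (3 * X)) < Scl h X m a) :
    ∃ p : ℕ, p.Prime ∧ p ≡ a [MOD 2 ^ m] ∧ X < p ∧ (p : ℝ) < X * Real.exp h := by
  by_contra hcon
  push Not at hcon
  have hX0 : 0 < X := by linarith
  apply absurd hS
  rw [not_lt, Chebyshev.psi_sub_theta_eq_sum_not_prime]
  unfold Scl
  have hsub : ∀ n ∈ (Icc 1 ⌊3 * X⌋₊).filter (fun n => n ≡ a [MOD 2 ^ m]), n.Prime →
      Ph h (n / X) * vonMangoldt n = 0 := by
    intro n hn hp
    rw [mem_filter] at hn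
    have h1 := hcon n hp hn.2
    rcases le_or_gt (n : ℝ) X with h2 | h2
    · rw [Ph_zero_left hh (by positivity) ((div_le_one hX0).mpr h2), zero_mul]
    · have h3 := h1 h2
      rw [Ph_zero_right hh, zero_mul]
      rw [le_div_iff₀ hX0]
      linarith
  calc ∑ n ∈ (Icc 1 ⌊3 * X⌋₊).filter (fun n => n ≡ a [MOD 2 ^ m]), Ph h (n / X) * vonMangoldt n
      ≤ ∑ n ∈ (Icc 1 ⌊3 * X⌋₊).filter (fun n => n ≡ a [MOD 2 ^ m]),
        (if n.Prime then 0 else vonMangoldt n) := by
        apply sum_le_sum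
        intro n hn
        split_ifs with hp
        · exact (hsub n hn hp).le
        · have h1 : Ph h (n / X) ≤ 1 := (Ph_le hh _).trans (by linarith)
          calc _ ≤ 1 * vonMangoldt n :=
                mul_le_mul_of_nonneg_right h1 ArithmeticFunction.vonMangoldt_nonneg
            _ = _ := one_mul _
    _ ≤ ∑ n ∈ Icc 1 ⌊3 * X⌋₊, (if n.Prime then 0 else vonMangoldt n) := by
        apply sum_le_sum_of_subset_of_nonneg (filter_subset _ _)
        intro n _ _
        split_ifs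
        · exact le_rfl
        · exact ArithmeticFunction.vonMangoldt_nonneg
    _ = ∑ n ∈ Ioc 0 ⌊3 * X⌋₊ with ¬ n.Prime, vonMangoldt n := by
        rw [sum_filter]
        apply sum_congr
        · ext n; simp [Nat.succ_le_iff]
        · intro n _
          split_ifs <;> simp_all

end

end Pool.Agent.H13R3.PH
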