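import Mathlib
import Pool.Agent.H442R2.EHI.PntErr
import Pool.Agent.H13R3.PH.A4

/-! Primes in residue classes modulo powers of two, in short windows. -/

open Finset

namespace Pool.Agent.H13R3.PH

open ArithmeticFunction (vonMangoldt)

noncomputable section

lemma Ph_mid {h u : ℝ} (h1 : Real.exp (h / 4) ≤ u) (h2 : u ≤ Real.exp (3 * h / 4)) :
    h / 4 ≤ Ph h u := by
  have h0 : 0 < u := (Real.exp_pos _).trans_le h1
  have a1 : h / 4 ≤ Real.log u := by
    rw [Real.le_log_iff_exp_le h0]; exact h1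
  have a2 : Real.log u ≤ 3 * h / 4 := by
    rw [Real.log_le_iff_le_exp h0]; exact h2
  have : |Real.log u - h / 2| ≤ h / 4 := by
    rw [abs_le]; constructor <;> linarith
  unfold Ph
  exact (by linarith : h / 4 ≤ h / 2 - |Real.log u - h / 2|).trans (le_max_right _ _)

lemma Sodd_lower {h X : ℝ} (hh : 0 < h) (hh1 : h ≤ 1) (hX : 2 ≤ X) :
    h / 4 * (Chebyshev.theta (X * Real.exp (3 * h / 4)) - Chebyshev.theta (X * Real.exp (h / 4))) ≤
      Sodd h X := by
  have hX0 : 0 < X := by linarith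
  have hab : X * Real.exp (h / 4) ≤ X * Real.exp (3 * h / 4) := by
    gcongr; linarith
  have ha : X ≤ X * Real.exp (h / 4) := le_mul_of_one_le_right hX0.le (Real.one_le_exp (by linarith))
  have hb : X * Real.exp (3 * h / 4) ≤ 3 * X := by
    have : Real.exp (3 * h / 4) ≤ Real.exp 1 := Real.exp_le_exp.mpr (by linarith)
    have h2 := Real.exp_one_lt_d9
    nlinarith
  have hfl : ⌊X * Real.exp (h / 4)⌋₊ ≤ ⌊X * Real.exp (3 * h / 4)⌋₊ := Nat.floor_le_floor hab
  have e : Chebyshev.theta (X * Real.exp (3 * h / 4)) - Chebyshev.theta (X * Real.exp (h / 4)) =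
      ∑ n ∈ (Ioc ⌊X * Real.exp (h / 4)⌋₊ ⌊X * Real.exp (3 * h / 4)⌋₊).filter (fun n => n.Prime),
        Real.log n := by
    unfold Chebyshev.theta
    rw [sub_eq_iff_eq_add, ← sum_union]
    · apply sum_congr _ (fun _ _ => rfl)
      rw [← filter_union, union_comm, Ioc_union_Ioc_eq_Ioc (Nat.zero_le _) hfl]
    · apply disjoint_filter_filter
      rw [disjoint_left]
      intro n hn hn'
      rw [mem_Ioc] at hn hn'
      omega
  rw [e, mul_sum]
  unfold Sodd
  have hsub : (Ioc ⌊X * Real.exp (h / 4)⌋₊ ⌊X * Real.exp (3 * h / 4)⌋₊).filter (fun n => n.Prime) ⊆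
      (Icc 1 ⌊3 * X⌋₊).filter (fun n => Odd n) := by
    intro n hn
    rw [mem_filter, mem_Ioc] at hn
    rw [mem_filter, mem_Icc]
    refine ⟨⟨hn.2.one_lt.le, hn.1.2.trans (Nat.floor_le_floor hb)⟩, ?_⟩
    apply hn.2.odd_of_ne_two
    rintro rfl
    have h1 : ⌊X * Real.exp (h / 4)⌋₊ < 2 := hn.1.1
    rw [Nat.floor_lt (by positivity)] at h1
    push_cast at h1
    linarith
  calc _ ≤ ∑ n ∈ (Ioc ⌊X * Real.exp (h / 4)⌋₊ ⌊X * Real.exp (3 * h / 4)⌋₊).filter (fun n => n.Prime),
        Ph h (n / X) * vonMangoldt n := by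
        apply sum_le_sum
        intro n hn
        rw [mem_filter, mem_Ioc] at hn
        rw [ArithmeticFunction.vonMangoldt_apply_prime hn.2]
        apply mul_le_mul_of_nonneg_right _ (Real.log_natCast_nonneg _)
        apply Ph_mid
        · rw [le_div_iff₀ hX0, mul_comm]
          exact ((Nat.floor_lt (by positivity)).mp hn.1.1).le
        · rw [div_le_iff₀ hX0, mul_comm]
          exact (Nat.le_floor_iff (by positivity)).mp hn.1.2
    _ ≤ _ := sum_le_sum_of_subset_of_nonneg hsub fun n _ _ => w_nonneg h X n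

/-- prime number theorem in windows -/
lemma theta_window (A : ℕ) : ∃ X1 : ℝ, ∀ X : ℝ, X1 ≤ X →
    X / (Real.log X) ^ A / 4 ≤
      Chebyshev.theta (X * Real.exp (3 * (1 / (Real.log X) ^ A) / 4)) -
        Chebyshev.theta (X * Real.exp ((1 / (Real.log X) ^ A) / 4)) := by
  obtain ⟨C, hC, hθ⟩ := Pool.Agent.H442R2.EHI.PntErrAux.thetaU (A + 1)
  have ht : Filter.Tendsto (fun X : ℝ => (Real.log X) ^ A / X) Filter.atTop (nhds 0) := by
    have h1 := (isLittleO_log_rpow_rpow_atTop (A : ℝ) (one_pos : (0:ℝ) < 1)).tendsto_div_nhds_zero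
    refine h1.congr fun x => ?_
    rw [Real.rpow_natCast, Real.rpow_one]
  have hev := (ht.eventually (gt_mem_nhds (by norm_num : (0:ℝ) < 1 / 8))).and
    ((Filter.eventually_ge_atTop (4 : ℝ)).and
      (Real.tendsto_log_atTop.eventually_ge_atTop (48 * C * 2 ^ (A + 1) + 1)))
  obtain ⟨X1, hX1⟩ := Filter.eventually_atTop.mp hev
  refine ⟨X1, fun X hX => ?_⟩
  obtain ⟨h1, h4, hlog⟩ := hX1 X hX
  have hX0 : 0 < X := by linarith
  have hC2 : 0 < 48 * C * 2 ^ (A + 1) := by positivity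
  have hlog1 : 1 ≤ Real.log X := by linarith
  have hlog0 : 0 < Real.log X := by linarith
  set h : ℝ := 1 / (Real.log X) ^ A with hh
  have hlogA : 1 ≤ (Real.log X) ^ A := one_le_pow₀ hlog1
  have hh0 : 0 < h := by positivity
  have hh1 : h ≤ 1 := by
    rw [hh, div_le_one (by positivity)]; exact hlogA
  set a : ℝ := X * Real.exp (h / 4) with ha
  set b : ℝ := X * Real.exp (3 * h / 4) with hb
  have hXa : X ≤ a := le_mul_of_one_le_right hX0.le (Real.one_le_exp (by linarith))
  have hab : a ≤ b := by rw [ha, hb]; gcongr; linarith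
  have hb3 : b ≤ 3 * X := by
    have : Real.exp (3 * h / 4) ≤ Real.exp 1 := Real.exp_le_exp.mpr (by linarith)
    have h2 := Real.exp_one_lt_d9
    rw [hb]
    nlinarith
  -- the main term
  have hba : X * h / 2 ≤ b - a := by
    have e1 : Real.exp (3 * h / 4) = Real.exp (h / 4) * Real.exp (h / 2) := by
      rw [← Real.exp_add]; congr 1; ring
    have e2 : 1 + h / 2 ≤ Real.exp (h / 2) := by
      have := Real.add_one_le_exp (h / 2); linarith
    have e3 : 1 ≤ Real.exp (h / 4) := Real.one_le_exp (by linarith)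
    have e4 : b - a = X * (Real.exp (h / 4) * (Real.exp (h / 2) - 1)) := by
      rw [ha, hb, e1]; ring
    rw [e4]
    have e5 : h / 2 ≤ Real.exp (h / 4) * (Real.exp (h / 2) - 1) := by nlinarith
    calc X * h / 2 = X * (h / 2) := by ring
      _ ≤ _ := by gcongr
  -- error terms
  have herr : ∀ y : ℝ, X ≤ y → y ≤ 3 * X →
      |Chebyshev.theta y - ⌊y⌋₊| ≤ 3 * C * 2 ^ (A + 1) * X * h / Real.log X := by
    intro y hy1 hy2
    have hy0 : 0 ≤ y := by linarith
    have hf1 : (⌊y⌋₊ : ℝ) ≤ y := Nat.floor_le hy0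
    have hf2 : y < ⌊y⌋₊ + 1 := Nat.lt_floor_add_one y
    have hf3 : 2 ≤ ⌊y⌋₊ := by
      apply Nat.le_floor
      push_cast; linarith
    have h5 := hθ ⌊y⌋₊ hf3
    rw [← Chebyshev.theta_eq_theta_coe_floor] at h5
    refine h5.trans ?_
    have hlf : Real.log X / 2 ≤ Real.log ⌊y⌋₊ := by
      have h6 : Real.log X / 2 = Real.log (Real.sqrt X) := by
        rw [Real.log_sqrt hX0.le]
      rw [h6]
      apply Real.log_le_log (Real.sqrt_pos.mpr hX0)
      have h7 : Real.sqrt X ≤ X / 2 := by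
        rw [Real.sqrt_le_left (by linarith)]
        nlinarith
      linarith
    have hfl0 : (0 : ℝ) ≤ ⌊y⌋₊ := Nat.cast_nonneg _
    calc C * ((⌊y⌋₊ : ℝ) / Real.log ⌊y⌋₊ ^ (A + 1)) ≤ C * (3 * X / (Real.log X / 2) ^ (A + 1)) := by
          gcongr
          linarith
      _ = 3 * C * 2 ^ (A + 1) * X * h / Real.log X := by
          rw [hh, div_pow]
          field_simp
          ring
  have hea := herr a hXa (hab.trans hb3)
  have heb := herr b (hXa.trans hab) hb3
  have hfa : (⌊a⌋₊ : ℝ) ≤ a := Nat.floor_le (by linarith)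
  have hfb : b < ⌊b⌋₊ + 1 := Nat.lt_floor_add_one b
  have hsmall : 3 * C * 2 ^ (A + 1) * X * h / Real.log X ≤ X * h / 16 := by
    rw [div_le_div_iff₀ hlog0 (by norm_num)]
    have h8 : 48 * C * 2 ^ (A + 1) ≤ Real.log X := by linarith
    have hXh : 0 < X * h := by positivity
    calc 3 * C * 2 ^ (A + 1) * X * h * 16 = (48 * C * 2 ^ (A + 1)) * (X * h) := by ring
      _ ≤ Real.log X * (X * h) := by gcongr
      _ = X * h * Real.log X := by ring
  have hone : 1 ≤ X * h / 8 := by
    have h9 : (Real.log X) ^ A * 8 ≤ X := by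
      rw [div_lt_iff₀ hX0] at h1
      linarith
    rw [hh]
    rw [le_div_iff₀ (by norm_num), mul_one_div, le_div_iff₀ (by positivity)]
    linarith
  have hfin : X / (Real.log X) ^ A / 4 = X * h / 4 := by rw [hh]; ring
  rw [hfin]
  have h10 := abs_le.mp hea
  have h11 := abs_le.mp heb
  linarith [h10.1, h10.2, h11.1, h11.2]

/-- every odd class modulo `2 ^ m`, `2 ^ m ≤ exp ((log log X) ^ 6)`, contains a prime in
`(X, X exp (1 / (log X) ^ A))` -/
theorem prime_window (A : ℕ) : ∃ X0 : ℝ, ∀ X : ℝ, X0 ≤ X →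
    ∀ m : ℕ, ((2 ^ m : ℕ) : ℝ) ≤ Real.exp ((Real.log (Real.log X)) ^ 6) → ∀ a : ℕ, Odd a →
      ∃ p : ℕ, p.Prime ∧ p ≡ a [MOD 2 ^ m] ∧ X < p ∧
        (p : ℝ) < X * Real.exp (1 / (Real.log X) ^ A) := by
  obtain ⟨X1, h1⟩ := theta_window A
  obtain ⟨X2, h2⟩ := psi_two_pow
  obtain ⟨l1, hl1⟩ := Pool.Agent.H378R2.M1.exp_dominates (2 * (2 * A + 9)) 6
  set Λ : ℝ := max (max l1 (2 * A + 40)) 1 with hΛ
  refine ⟨max (max X1 X2) (Real.exp (Real.exp Λ)), fun X hX m hm a ha => ?_⟩
  have hX1 : X1 ≤ X := ((le_max_left _ _).trans (le_max_left _ _)).trans hX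
  have hX2 : X2 ≤ X := ((le_max_right _ _).trans (le_max_left _ _)).trans hX
  have hX3 : Real.exp (Real.exp Λ) ≤ X := (le_max_right _ _).trans hX
  have hX0 : 0 < X := (Real.exp_pos _).trans_le hX3
  have hL : Real.exp Λ ≤ Real.log X := by
    rw [Real.le_log_iff_exp_le hX0]; exact hX3
  have hL0 : 0 < Real.log X := (Real.exp_pos _).trans_le hL
  set lam := Real.log (Real.log X) with hlam
  have hlam1 : Λ ≤ lam := by
    rw [hlam, Real.le_log_iff_exp_le hL0]; exact hL
  have hla : l1 ≤ lam := ((le_max_left _ _).trans (le_max_left _ _)).trans hlam1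
  have hlb : 2 * A + 40 ≤ lam := ((le_max_right _ _).trans (le_max_left _ _)).trans hlam1
  have hA0 : (0 : ℝ) ≤ A := Nat.cast_nonneg A
  have hlc : 1 ≤ lam := by linarith
  have hl0 : 0 < lam := by linarith
  have hexplam : Real.exp lam = Real.log X := by rw [hlam, Real.exp_log hL0]
  have hlogX1 : 1 ≤ Real.log X := by
    rw [← hexplam]; exact Real.one_le_exp hl0.le
  have hX2' : 2 ≤ X := by
    have h3 : Real.exp 1 ≤ X := by
      rw [← Real.le_log_iff_exp_le hX0]; exact hlogX1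
    have := Real.exp_one_gt_d9
    linarith
  set h : ℝ := 1 / (Real.log X) ^ A with hh
  have hh0 : 0 < h := by positivity
  have hh1 : h ≤ 1 := by
    rw [hh, div_le_one (by positivity)]; exact one_le_pow₀ hlogX1
  apply exists_prime_of_class hh0 hh1 (by linarith)
  -- lower bound for the class
  have hB0 : 0 ≤ X * Real.exp (-lam ^ 7) := by positivity
  have hcl := class_lower h X m a ha hB0 (fun χ hχ => h2 X hX2 h hh0 hh1 m hm χ hχ)
  have hso := Sodd_lower hh0 hh1 hX2'
  have hth := h1 X hX1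
  have hh2 : h = Real.exp (-(A * lam)) := by
    rw [hh, ← hexplam, ← Real.exp_nat_mul, Real.exp_neg, one_div]
  have hS1 : X * Real.exp (-(2 * A * lam)) / 16 ≤ Sodd h X := by
    refine le_trans ?_ hso
    have e1 : X * Real.exp (-(2 * A * lam)) / 16 = h / 4 * (X / (Real.log X) ^ A / 4) := by
      have : X / (Real.log X) ^ A = X * h := by rw [hh]; ring
      rw [this, hh2]
      have : Real.exp (-(2 * A * lam)) = Real.exp (-(A * lam)) * Real.exp (-(A * lam)) := by
        rw [← Real.exp_add]; congr 1; ring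
      rw [this]; ring
    rw [e1]
    gcongr
  -- totient
  set φ : ℝ := (Nat.totient (2 ^ m) : ℝ) with hφ
  have hφ1 : 0 < φ := by
    rw [hφ]; exact_mod_cast Nat.totient_pos.mpr (by positivity)
  have hφ2 : φ ≤ Real.exp (lam ^ 6) := by
    refine le_trans ?_ hm
    rw [hφ]; exact_mod_cast Nat.totient_le _
  set E : ℝ := Real.exp (-(2 * A * lam) - lam ^ 6) with hE
  have hE0 : 0 < E := Real.exp_pos _
  have hEφ : E * φ ≤ Real.exp (-(2 * A * lam)) := by
    calc E * φ ≤ E * Real.exp (lam ^ 6) := by gcongr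
      _ = _ := by rw [hE, ← Real.exp_add]; congr 1; ring
  have h6 : 1 ≤ lam ^ 6 := one_le_pow₀ hlc
  have h61 : lam ≤ lam ^ 6 := le_self_pow₀ hlc (by norm_num)
  have hlog32 : Real.log 32 ≤ 4 := by
    rw [Real.log_le_iff_le_exp (by norm_num)]
    have h7 : Real.exp 4 = (Real.exp 1) ^ 4 := by rw [← Real.exp_nat_mul]; norm_num
    rw [h7]
    have := Real.exp_one_gt_d9
    calc (32 : ℝ) ≤ (2.7) ^ 4 := by norm_num
      _ ≤ _ := by gcongr; linarith
  have hi : Real.exp (-lam ^ 7) ≤ E / 32 := by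
    rw [le_div_iff₀ (by norm_num)]
    have e1 : Real.exp (-lam ^ 7) * 32 = Real.exp (-lam ^ 7 + Real.log 32) := by
      rw [Real.exp_add, Real.exp_log (by norm_num)]
    rw [e1, hE]
    apply Real.exp_le_exp.mpr
    have h8 : lam ^ 7 = lam * lam ^ 6 := by ring
    have h9 : (2 * A + 40) * lam ^ 6 ≤ lam * lam ^ 6 := by gcongr
    nlinarith
  have hScl : X * E / 32 ≤ Scl h X m a := by
    have h10 : φ * (X * E / 32) ≤ φ * Scl h X m a := by
      refine le_trans ?_ hcl
      have h11 : φ * (X * Real.exp (-lam ^ 7)) ≤ φ * (X * (E / 32)) := by gcongr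
      have h12 : X * (E * φ) / 16 ≤ X * Real.exp (-(2 * A * lam)) / 16 := by gcongr
      have h13 : φ * (X * E / 32) = X * (E * φ) / 16 - φ * (X * (E / 32)) := by ring
      rw [h13]
      linarith
    exact le_of_mul_le_mul_left h10 hφ1
  refine lt_of_lt_of_le ?_ hScl
  -- prime powers
  refine lt_of_le_of_lt (Chebyshev.psi_sub_theta_le (by linarith)) ?_
  have h3X : Real.log (3 * X) ≤ 3 * Real.log X := by
    rw [Real.log_mul (by norm_num) hX0.ne']
    have : Real.log 3 ≤ 2 := by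
      have := Real.log_le_sub_one_of_pos (by norm_num : (0:ℝ) < 3)
      linarith
    linarith
  have hs3 : Real.sqrt (3 * X) ≤ 2 * Real.sqrt X := by
    rw [Real.sqrt_mul (by norm_num)]
    gcongr
    rw [Real.sqrt_le_left (by norm_num)]
    norm_num
  have hlog3X : 0 ≤ Real.log (3 * X) := Real.log_nonneg (by linarith)
  have hsX : 0 < Real.sqrt X := Real.sqrt_pos.mpr hX0
  have hsq : Real.sqrt X = Real.exp (Real.exp lam / 2) := by
    rw [hexplam]
    rw [Real.sqrt_eq_iff_mul_self_eq hX0.le (Real.exp_pos _).le, ← Real.exp_add, add_halves,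
      Real.exp_log hX0]
  have hbig : 384 * Real.exp lam < Real.sqrt X * E := by
    rw [hsq, hE, ← Real.exp_add]
    have h384 : (384 : ℝ) ≤ Real.exp 6 := by
      have h7 : Real.exp 6 = (Real.exp 1) ^ 6 := by rw [← Real.exp_nat_mul]; norm_num
      rw [h7]
      have := Real.exp_one_gt_d9
      calc (384 : ℝ) ≤ (2.7) ^ 6 := by norm_num
        _ ≤ _ := by gcongr; linarith
    calc 384 * Real.exp lam ≤ Real.exp 6 * Real.exp lam := by gcongr
      _ = Real.exp (6 + lam) := by rw [← Real.exp_add]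
      _ < Real.exp (Real.exp lam / 2 + (-(2 * A * lam) - lam ^ 6)) := by
          apply Real.exp_lt_exp.mpr
          have h14 := hl1 lam hla
          have h15 : A * lam ≤ A * lam ^ 6 := by gcongr
          nlinarith
  calc 2 * Real.sqrt (3 * X) * Real.log (3 * X) ≤ 2 * (2 * Real.sqrt X) * (3 * Real.log X) := by
        gcongr
    _ = 12 * Real.sqrt X * Real.exp lam := by rw [hexplam]; ring
    _ = Real.sqrt X * (384 * Real.exp lam) / 32 := by ring
    _ < Real.sqrt X * (Real.sqrt X * E) / 32 := by gcongr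
    _ = (Real.sqrt X * Real.sqrt X) * E / 32 := by ring
    _ = X * E / 32 := by rw [Real.mul_self_sqrt hX0.le]

end

end Pool.Agent.H13R3.PH
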