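import Mathlib
import Pool.Agent.H108R3.Had.Defs

/-! Paley's Hadamard matrices of order `p + 1`, `p ≡ 3 mod 4`, and gluing. -/

open Finset Matrix

namespace Pool.Agent.H13R3.PH

open Pool.Agent.H108R3.Had (HasHad)

/-- a sign matrix with pairwise orthogonal rows indexed by a finite type gives `HasHad` -/
lemma hasHad_of_type {ι : Type} [Fintype ι] [DecidableEq ι] {n : ℕ} (hn : Fintype.card ι = n)
    (H : Matrix ι ι ℤ) (h1 : ∀ i j, H i j = 1 ∨ H i j = -1)
    (h2 : H * Hᵀ = (n : ℤ) • (1 : Matrix ι ι ℤ)) : HasHad n := by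
  let e : ι ≃ Fin n := Fintype.equivFinOfCardEq hn
  refine ⟨H.submatrix e.symm e.symm, fun i j => h1 _ _, ?_⟩
  rw [Matrix.transpose_submatrix, Matrix.submatrix_mul_equiv, h2]
  ext i j
  simp only [Matrix.submatrix_apply, Matrix.smul_apply, Matrix.one_apply, smul_eq_mul,
    e.symm.injective.eq_iff]

section paley

variable {p : ℕ} [Fact p.Prime]

lemma jacobsthal (hp : p ≠ 2) (c : ZMod p) (hc : c ≠ 0) :
    ∑ x : ZMod p, quadraticChar (ZMod p) x * quadraticChar (ZMod p) (x + c) = -1 := by
  set χ := quadraticChar (ZMod p) with hχ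
  have hF : ringChar (ZMod p) ≠ 2 := by rwa [ZMod.ringChar_zmod_n]
  have h1 : χ ≠ 1 := quadraticChar_ne_one hF
  have h2 : χ⁻¹ = χ := (quadraticChar_isQuadratic (F := ZMod p)).inv
  have h3 := jacobiSum_nontrivial_inv h1
  rw [h2] at h3
  have hc' : -c ≠ 0 := neg_ne_zero.mpr hc
  have h4 : ∑ x : ZMod p, χ x * χ (x + c) = ∑ x : ZMod p, χ (-c * x) * χ (-c * x + c) :=
    (Equiv.sum_comp (Equiv.mulLeft₀ (-c) hc') (fun x => χ x * χ (x + c))).symm
  rw [h4]
  have h5 : ∀ x : ZMod p, χ (-c * x) * χ (-c * x + c) = χ (-1) * (χ x * χ (1 - x)) := by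
    intro x
    have e1 : -c * x + c = c * (1 - x) := by ring
    have e2 : -c * x = -1 * (c * x) := by ring
    rw [e1, e2, map_mul, map_mul, map_mul]
    have h6 : χ c * χ c = 1 := by
      have := quadraticChar_sq_one (F := ZMod p) hc
      rw [sq] at this; exact this
    linear_combination (χ (-1) * χ x * χ (1 - x)) * h6
  simp_rw [h5]
  rw [← mul_sum]
  change χ (-1) * jacobiSum χ χ = -1
  rw [h3]
  have h7 : χ (-1) * χ (-1) = 1 := by
    have := quadraticChar_sq_one (F := ZMod p) (a := -1) (by simp)
    rw [sq] at this; exact this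
  linear_combination -h7

lemma chi_neg_one (hp : p % 4 = 3) : quadraticChar (ZMod p) (-1) = -1 := by
  have hF : ringChar (ZMod p) ≠ 2 := by
    rw [ZMod.ringChar_zmod_n]; rintro rfl; omega
  rw [quadraticChar_neg_one hF, ZMod.card, ZMod.χ₄_nat_three_mod_four hp]

lemma chi_neg (hp : p % 4 = 3) (a : ZMod p) :
    quadraticChar (ZMod p) (-a) = -quadraticChar (ZMod p) a := by
  have : -a = -1 * a := by ring
  rw [this, map_mul, chi_neg_one hp]
  ring

/-- Paley's matrix -/
def paley (p : ℕ) [Fact p.Prime] : Matrix (Option (ZMod p)) (Option (ZMod p)) ℤ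
  | none, none => 1
  | none, some _ => 1
  | some _, none => -1
  | some i, some j => if i = j then 1 else quadraticChar (ZMod p) (i - j)

lemma paley_sign (i j : Option (ZMod p)) : paley p i j = 1 ∨ paley p i j = -1 := by
  rcases i with _ | i <;> rcases j with _ | j
  · exact Or.inl rfl
  · exact Or.inl rfl
  · exact Or.inr rfl
  · change (if i = j then (1:ℤ) else quadraticChar (ZMod p) (i - j)) = 1 ∨
      (if i = j then (1:ℤ) else quadraticChar (ZMod p) (i - j)) = -1
    split_ifs with h
    · exact Or.inl rfl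
    · exact quadraticChar_dichotomy (sub_ne_zero.mpr h)

lemma paley_some (i j : ZMod p) :
    paley p (some i) (some j) = (if i = j then 1 else 0) + quadraticChar (ZMod p) (i - j) := by
  simp only [paley]
  split_ifs with h
  · rw [h, sub_self, quadraticChar_zero]; rfl
  · ring

lemma chi_zero_sum (hp : p ≠ 2) (i : ZMod p) : ∑ j : ZMod p, quadraticChar (ZMod p) (i - j) = 0 := by
  have hF : ringChar (ZMod p) ≠ 2 := by rwa [ZMod.ringChar_zmod_n]
  have h := Equiv.sum_comp (Equiv.subLeft i) (fun x => quadraticChar (ZMod p) x)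
  simp only [Equiv.subLeft_apply] at h
  rw [h]
  exact quadraticChar_sum_zero hF

theorem paley_orth (hp : p % 4 = 3) :
    paley p * (paley p)ᵀ = ((p + 1 : ℕ) : ℤ) • (1 : Matrix (Option (ZMod p)) (Option (ZMod p)) ℤ) := by
  have hp2 : p ≠ 2 := by rintro rfl; omega
  have hrow : ∀ i : ZMod p, ∑ j : ZMod p, paley p (some i) (some j) = 1 := by
    intro i
    simp_rw [paley_some]
    rw [sum_add_distrib, chi_zero_sum hp2]
    simp
  ext a b
  rw [Matrix.mul_apply, Fintype.sum_option]
  simp only [Matrix.transpose_apply, Matrix.smul_apply, Matrix.one_apply, smul_eq_mul]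
  rcases a with _ | i <;> rcases b with _ | i'
  · simp [paley, ZMod.card]
    ring
  · simp only [paley]
    rw [if_neg (by simp)]
    have := hrow i'
    simp only [paley] at this
    simp only [one_mul]
    rw [this]; ring
  · simp only [paley]
    rw [if_neg (by simp)]
    have := hrow i
    simp only [paley] at this
    simp only [mul_one]
    rw [this]; ring
  · by_cases hii : i = i'
    · subst hii
      rw [if_pos rfl]
      have h1 : ∀ j : ZMod p, paley p (some i) (some j) * paley p (some i) (some j) = 1 := by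
        intro j
        rcases paley_sign (p := p) (some i) (some j) with h | h <;> rw [h] <;> norm_num
      simp_rw [h1]
      simp [paley, ZMod.card]
      ring
    · rw [if_neg (by simpa using hii)]
      simp_rw [paley_some]
      have h0 : paley p (some i) none * paley p (some i') none = 1 := by simp [paley]
      rw [h0]
      have e : ∀ j : ZMod p, ((if i = j then (1:ℤ) else 0) + quadraticChar (ZMod p) (i - j)) *
          ((if i' = j then (1:ℤ) else 0) + quadraticChar (ZMod p) (i' - j)) =
          (if i = j then quadraticChar (ZMod p) (i' - j) else 0) +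
          (if i' = j then quadraticChar (ZMod p) (i - j) else 0) +
          quadraticChar (ZMod p) (i - j) * quadraticChar (ZMod p) (i' - j) := by
        intro j
        by_cases h1 : i = j
        · by_cases h2 : i' = j
          · exact absurd (h1.trans h2.symm) hii
          · rw [if_pos h1, if_neg h2, if_pos h1, if_neg h2]; ring
        · by_cases h2 : i' = j
          · rw [if_neg h1, if_pos h2, if_neg h1, if_pos h2]; ring
          · rw [if_neg h1, if_neg h2, if_neg h1, if_neg h2]; ring
      simp_rw [e]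
      rw [sum_add_distrib, sum_add_distrib, sum_ite_eq, sum_ite_eq, if_pos (mem_univ _),
        if_pos (mem_univ _)]
      have h1 : ∑ j : ZMod p, quadraticChar (ZMod p) (i - j) * quadraticChar (ZMod p) (i' - j) = -1 := by
        rw [← jacobsthal hp2 (i' - i) (sub_ne_zero.mpr (Ne.symm hii))]
        rw [← Equiv.sum_comp (Equiv.subLeft i)
          (fun x => quadraticChar (ZMod p) x * quadraticChar (ZMod p) (x + (i' - i)))]
        apply sum_congr rfl
        intro j _
        simp only [Equiv.subLeft_apply]
        congr 2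
        ring
      rw [h1]
      have h2 : quadraticChar (ZMod p) (i' - i) = -quadraticChar (ZMod p) (i - i') := by
        rw [← chi_neg hp]; congr 1; ring
      rw [h2]; ring

end paley

theorem hasHad_paley {p : ℕ} (hp : p.Prime) (h4 : p % 4 = 3) : HasHad (p + 1) := by
  have : Fact p.Prime := ⟨hp⟩
  refine hasHad_of_type (ι := Option (ZMod p)) ?_ (paley p) paley_sign (paley_orth h4)
  rw [Fintype.card_option, ZMod.card]

/-- gluing two Hadamard matrices side by side -/
theorem glue {a b r : ℕ} (ha : HasHad a) (hb : HasHad b) (hra : r ≤ a) (hrb : r ≤ b) :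
    ∃ H : Matrix (Fin r) (Fin (a + b)) ℤ, (∀ i j, H i j = 1 ∨ H i j = -1) ∧
      H * Hᵀ = ((a + b : ℕ) : ℤ) • (1 : Matrix (Fin r) (Fin r) ℤ) := by
  obtain ⟨A, hA1, hA2⟩ := ha
  obtain ⟨B, hB1, hB2⟩ := hb
  refine ⟨Matrix.of fun i j => Fin.addCases (fun j => A (Fin.castLE hra i) j)
    (fun j => B (Fin.castLE hrb i) j) j, ?_, ?_⟩
  · intro i j
    refine Fin.addCases (fun j => ?_) (fun j => ?_) j
    · simpa using hA1 _ _
    · simpa using hB1 _ _
  · ext i i'
    rw [Matrix.mul_apply, Fin.sum_univ_add]
    simp only [Matrix.transpose_apply, Matrix.of_apply, Fin.addCases_left, Fin.addCases_right]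
    have h1 := congrFun (congrFun hA2 (Fin.castLE hra i)) (Fin.castLE hra i')
    have h2 := congrFun (congrFun hB2 (Fin.castLE hrb i)) (Fin.castLE hrb i')
    rw [Matrix.mul_apply] at h1 h2
    simp only [Matrix.transpose_apply, Matrix.smul_apply, smul_eq_mul, Matrix.one_apply] at h1 h2 ⊢
    rw [h1, h2]
    have e1 : (Fin.castLE hra i = Fin.castLE hra i') ↔ i = i' := by
      simp [Fin.ext_iff]
    have e2 : (Fin.castLE hrb i = Fin.castLE hrb i') ↔ i = i' := by
      simp [Fin.ext_iff]
    simp only [e1, e2]
    push_cast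
    split_ifs <;> ring

end Pool.Agent.H13R3.PH
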