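import Mathlib
import Pool.Agent.H13R3.PH.A5
import Pool.Agent.H13R3.PH.B1
import Pool.Agent.H108R3.Had.Main

/-! Partial Hadamard matrices with almost `n / 2` rows. -/

open Finset Matrix Filter

namespace Pool.Agent.H13R3.PH

open Pool.Agent.H108R3.Had (HasHad had_loglog)

theorem half_hadamard (A : ℕ) : ∃ n₀ : ℕ, ∀ n : ℕ, n₀ ≤ n → 4 ∣ n →
    ∃ r : ℕ, (n : ℝ) / 2 - n / (Real.log n) ^ A ≤ r ∧
      ∃ H : Matrix (Fin r) (Fin n) ℤ, (∀ i j, H i j = 1 ∨ H i j = -1) ∧
        H * Hᵀ = (n : ℤ) • (1 : Matrix (Fin r) (Fin r) ℤ) := by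
  obtain ⟨C, hC1, hHad⟩ := had_loglog
  obtain ⟨X0, hX0⟩ := prime_window (A + 1)
  have hN : Tendsto (fun n : ℕ => (n : ℝ)) atTop atTop := tendsto_natCast_atTop_atTop
  have hL : Tendsto (fun n : ℕ => Real.log n) atTop atTop := Real.tendsto_log_atTop.comp hN
  have hl : Tendsto (fun n : ℕ => Real.log (Real.log n)) atTop atTop :=
    Real.tendsto_log_atTop.comp hL
  have E1 : ∀ᶠ n : ℕ in atTop, 2 * X0 ≤ (n : ℝ) := hN.eventually_ge_atTop _
  have E2 : ∀ᶠ n : ℕ in atTop, 16 * C + 3 ≤ Real.log (Real.log n) := hl.eventually_ge_atTop _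
  have E3 : ∀ᶠ n : ℕ in atTop, 8 * (2 : ℝ) ^ (A + 2) + 4 ≤ Real.log n :=
    hL.eventually_ge_atTop _
  have E4 : ∀ᶠ n : ℕ in atTop, 2 * Real.log n ^ A ≤ n := by
    have h := (Real.isLittleO_pow_log_id_atTop (n := A)).bound (c := 1 / 2) (by norm_num)
    filter_upwards [hN.eventually h, E3] with n h1 h3
    have hLp : 0 ≤ Real.log n := by
      have : (0:ℝ) < 2 ^ (A + 2) := by positivity
      linarith
    rw [Real.norm_of_nonneg (by positivity), id, Real.norm_of_nonneg (by positivity)] at h1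
    linarith
  have E5 : ∀ᶠ n : ℕ in atTop, Real.log (Real.log n) ^ 6 + 3 ≤ Real.log n := by
    have h := (Real.tendsto_exp_div_pow_atTop 6).comp hl
    filter_upwards [h.eventually_ge_atTop 2, E2, E3] with n h1 h2 h3
    have hl3 : 3 ≤ Real.log (Real.log n) := by linarith
    have hLp : 0 < Real.log n := by
      have : (0:ℝ) < 2 ^ (A + 2) := by positivity
      linarith
    simp only [Function.comp] at h1
    rw [Real.exp_log hLp, le_div_iff₀ (by positivity)] at h1
    have : (3:ℝ) ^ 6 ≤ Real.log (Real.log n) ^ 6 := by gcongr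
    norm_num at this
    linarith
  have hall := E1.and (E2.and (E3.and (E4.and E5)))
  obtain ⟨n₀, hn₀⟩ := eventually_atTop.mp hall
  refine ⟨max n₀ 100, fun n hn h4 => ?_⟩
  obtain ⟨e1, e2, e3, e4, e5⟩ := hn₀ n (le_trans (le_max_left _ _) hn)
  have hn100 : 100 ≤ n := le_trans (le_max_right _ _) hn
  have hn100' : (100:ℝ) ≤ n := by exact_mod_cast hn100
  set L := Real.log n with hLdef
  set l := Real.log L with hldef
  have hpow : (1:ℝ) ≤ 2 ^ (A + 2) := one_le_pow₀ (by norm_num)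
  have hL4 : 4 ≤ L := by linarith
  have hLpos : 0 < L := by linarith
  have hl3 : 3 ≤ l := by linarith
  set X : ℝ := n / 2 with hX
  have hXpos : 0 < X := by positivity
  have hlogX : Real.log X = L - Real.log 2 := by
    rw [hX, Real.log_div (by positivity) (by norm_num)]
  have hlog2 : Real.log 2 < 1 := by
    have := Real.log_two_lt_d9; linarith
  have hlog2' : 0 < Real.log 2 := Real.log_pos (by norm_num)
  have hlogX2 : L / 2 ≤ Real.log X := by rw [hlogX]; linarith
  have hllX : l - 1 ≤ Real.log (Real.log X) := by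
    have h1 : Real.log (L / 2) ≤ Real.log (Real.log X) :=
      Real.log_le_log (by positivity) hlogX2
    rw [Real.log_div (by positivity) (by norm_num)] at h1
    linarith
  -- the exponent of two
  set V : ℝ := C * (1 + l) * (1 + Real.log (1 + l)) ^ 2 with hV
  set T : ℕ := ⌈V⌉₊ with hT
  have hlog1l : Real.log (1 + l) ≤ l := by
    have := Real.log_le_sub_one_of_pos (show 0 < 1 + l by linarith)
    linarith
  have hlog1l0 : 0 ≤ Real.log (1 + l) := Real.log_nonneg (by linarith)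
  have hVnn : 4 ≤ V := by
    have h1 : (1:ℝ) ≤ (1 + Real.log (1 + l)) ^ 2 := one_le_pow₀ (by linarith)
    have h2 : 4 ≤ C * (1 + l) := by nlinarith
    calc (4:ℝ) = 4 * 1 := by norm_num
      _ ≤ V := by rw [hV]; gcongr
  have hVT : V ≤ T := Nat.le_ceil _
  have hTV : (T : ℝ) < V + 1 := Nat.ceil_lt_add_one (by linarith)
  have hT2 : 2 ≤ T := by
    have : (2:ℝ) ≤ T := by linarith
    exact_mod_cast this
  have hVle : V + 1 ≤ (l - 1) ^ 6 := by
    have h1 : V ≤ C * (1 + l) * (1 + l) ^ 2 := by rw [hV]; gcongr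
    have h2 : V + 1 ≤ 2 * (C * (1 + l) ^ 3) := by
      have : 1 ≤ C * (1 + l) ^ 3 := by
        have h3 : (1:ℝ) ≤ (1 + l) ^ 3 := one_le_pow₀ (by linarith)
        nlinarith
      have h4 : C * (1 + l) * (1 + l) ^ 2 = C * (1 + l) ^ 3 := by ring
      linarith
    have h3 : (1 + l) ^ 3 ≤ (2 * (l - 1)) ^ 3 := by
      gcongr; linarith
    have h5 : 16 * C ≤ (l - 1) ^ 3 := by
      have h6 : 16 * C ≤ l - 1 := by linarith
      have h7 : (l - 1) ≤ (l - 1) ^ 3 := by
        have : (1:ℝ) ≤ l - 1 := by linarith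
        exact le_self_pow₀ this (by norm_num)
      linarith
    have h8 : 0 ≤ (l - 1) ^ 3 := by
      have : 0 ≤ l - 1 := by linarith
      positivity
    calc V + 1 ≤ 2 * (C * (1 + l) ^ 3) := h2
      _ ≤ 2 * (C * (2 * (l - 1)) ^ 3) := by gcongr
      _ = (16 * C) * (l - 1) ^ 3 := by ring
      _ ≤ (l - 1) ^ 3 * (l - 1) ^ 3 := by gcongr
      _ = (l - 1) ^ 6 := by ring
  have h2T : ((2 ^ T : ℕ) : ℝ) ≤ Real.exp ((l - 1) ^ 6) := by
    push_cast
    have h1 : (2:ℝ) ^ T = Real.exp (T * Real.log 2) := by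
      rw [mul_comm, Real.exp_mul, Real.exp_log (by norm_num), Real.rpow_natCast]
    rw [h1]
    apply Real.exp_le_exp.mpr
    have : (T : ℝ) * Real.log 2 ≤ T * 1 := by gcongr
    linarith
  have h2T' : ((2 ^ T : ℕ) : ℝ) ≤ Real.exp ((Real.log (Real.log X)) ^ 6) := by
    refine h2T.trans (Real.exp_le_exp.mpr ?_)
    have : 0 ≤ l - 1 := by linarith
    gcongr
  have h2Tn : ((2 ^ T : ℕ) : ℝ) * 20 ≤ n := by
    have h1 : Real.exp ((l - 1) ^ 6) ≤ Real.exp (L - 3) := by
      apply Real.exp_le_exp.mpr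
      have : (l - 1) ^ 6 ≤ l ^ 6 := by
        have : 0 ≤ l - 1 := by linarith
        gcongr; linarith
      linarith
    have h2 : Real.exp (L - 3) * 20 ≤ n := by
      rw [Real.exp_sub, hLdef, Real.exp_log (by linarith)]
      have h3 : (20:ℝ) ≤ Real.exp 3 := by
        have := Real.exp_one_gt_d9
        have h4 : Real.exp 3 = Real.exp 1 ^ 3 := by
          rw [← Real.exp_nat_mul]; norm_num
        rw [h4]
        calc (20:ℝ) ≤ 2.7182818283 ^ 3 := by norm_num
          _ ≤ Real.exp 1 ^ 3 := by gcongr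
      rw [div_mul_eq_mul_div, div_le_iff₀ (Real.exp_pos _)]
      gcongr
    nlinarith
  -- the prime
  have hodd : Odd (n - 1) := by
    obtain ⟨k, hk⟩ := h4
    exact ⟨2 * k - 1, by omega⟩
  obtain ⟨p, hp, hpmod, hpX, hpU⟩ := hX0 X (by linarith) T h2T' (n - 1) hodd
  have h4T : 4 ∣ 2 ^ T := by
    have := pow_dvd_pow 2 hT2
    simpa using this
  have hp4 : p % 4 = 3 := by
    have h1 : p ≡ n - 1 [MOD 4] := hpmod.of_dvd h4T
    obtain ⟨k, hk⟩ := h4
    unfold Nat.ModEq at h1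
    omega
  -- the upper estimate for the prime
  have hexp : Real.exp (1 / Real.log X ^ (A + 1)) ≤ 1 + 2 ^ (A + 2) / L ^ (A + 1) := by
    have hlX1 : 1 ≤ Real.log X := by linarith
    have hx1 : 1 / Real.log X ^ (A + 1) ≤ 1 := by
      rw [div_le_one (by positivity)]
      exact one_le_pow₀ hlX1
    have hx0 : 0 ≤ 1 / Real.log X ^ (A + 1) := by positivity
    have h1 : Real.exp (1 / Real.log X ^ (A + 1)) ≤ 1 + 2 * (1 / Real.log X ^ (A + 1)) := by
      have := Real.abs_exp_sub_one_le (x := 1 / Real.log X ^ (A + 1))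
        (by rw [abs_of_nonneg hx0]; exact hx1)
      rw [abs_of_nonneg hx0] at this
      have := (abs_le.mp this).2
      linarith
    have h2 : 1 / Real.log X ^ (A + 1) ≤ 1 / (L / 2) ^ (A + 1) := by gcongr
    have h3 : 2 * (1 / (L / 2) ^ (A + 1)) = 2 ^ (A + 2) / L ^ (A + 1) := by
      rw [div_pow]; field_simp; ring
    linarith
  have hpU2 : (p : ℝ) ≤ n / 2 + n * (2 ^ (A + 1) / L ^ (A + 1)) := by
    have h1 : X * Real.exp (1 / Real.log X ^ (A + 1)) ≤ X * (1 + 2 ^ (A + 2) / L ^ (A + 1)) := by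
      gcongr
    have h2 : X * (1 + 2 ^ (A + 2) / L ^ (A + 1)) =
        n / 2 + n * (2 ^ (A + 1) / L ^ (A + 1)) := by
      rw [hX]; ring
    linarith
  have h1 : 2 ^ (A + 1) / L ^ (A + 1) ≤ 1 / 16 * (1 / L ^ A) := by
    rw [div_le_iff₀ (by positivity), pow_succ L A]
    have : 1 / 16 * (1 / L ^ A) * (L ^ A * L) = L / 16 := by field_simp
    rw [this]
    have h5 : (2:ℝ) ^ (A + 2) = 2 * 2 ^ (A + 1) := by ring
    linarith
  have hkey : (n : ℝ) * (2 ^ (A + 1) / L ^ (A + 1)) + 1 ≤ n / L ^ A := by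
    have h2 : (1:ℝ) ≤ n * (1 / 2 * (1 / L ^ A)) := by
      have : (n:ℝ) * (1 / 2 * (1 / L ^ A)) = n / (2 * L ^ A) := by field_simp
      rw [this, le_div_iff₀ (by positivity)]
      linarith
    have h3 : 1 / 16 * (1 / L ^ A) ≤ 1 / 2 * (1 / L ^ A) := by
      gcongr; norm_num
    calc (n : ℝ) * (2 ^ (A + 1) / L ^ (A + 1)) + 1 ≤
        n * (1 / 2 * (1 / L ^ A)) + n * (1 / 2 * (1 / L ^ A)) := by
          gcongr; exact h1.trans h3
      _ = n / L ^ A := by ring
  have hquarter : (n : ℝ) * (2 ^ (A + 1) / L ^ (A + 1)) + 1 ≤ n / 4 := by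
    have h3 : 1 / L ^ A ≤ 1 := by
      rw [div_le_one (by positivity)]
      exact one_le_pow₀ (by linarith)
    have h4 : (2:ℝ) ^ (A + 1) / L ^ (A + 1) ≤ 1 / 16 := by linarith
    have h5 : (n:ℝ) * (2 ^ (A + 1) / L ^ (A + 1)) ≤ n * (1 / 16) := by gcongr
    linarith
  have hpn : (p : ℝ) + 1 ≤ n / 2 + n / 4 := by linarith
  have hpn' : p + 1 < n := by
    have : ((p + 1 : ℕ) : ℝ) < n := by push_cast; linarith
    exact_mod_cast this
  have hdvd : 2 ^ T ∣ n - (p + 1) := by
    have h3 : p + 1 ≡ n - 1 + 1 [MOD 2 ^ T] := hpmod.add_right 1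
    have h5 : n - 1 + 1 = n := by omega
    rw [h5] at h3
    exact (Nat.modEq_iff_dvd' hpn'.le).mp h3
  obtain ⟨q, hq⟩ := hdvd
  have hcast : ((n - (p + 1) : ℕ) : ℝ) = n - (p + 1) := by
    rw [Nat.cast_sub hpn'.le]; push_cast; ring
  have hq3 : 3 ≤ q := by
    have h3 : ((2 ^ T : ℕ) : ℝ) * q = n - (p + 1) := by
      rw [← hcast, hq]; push_cast; ring
    have h5 : (0:ℝ) < ((2 ^ T : ℕ) : ℝ) := by positivity
    have h6 : (3:ℝ) ≤ q := by
      by_contra hcon
      push Not at hcon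
      nlinarith
    exact_mod_cast h6
  have hqn : q ≤ n := by
    have h3 : q ≤ 2 ^ T * q := Nat.le_mul_of_pos_left _ (by positivity)
    omega
  have hHq : HasHad (2 ^ T * q) := by
    apply hHad q T hq3
    refine le_trans ?_ hVT
    have hq3' : (3:ℝ) ≤ q := by exact_mod_cast hq3
    have hlq1 : 1 ≤ Real.log q := by
      rw [Real.le_log_iff_exp_le (by linarith)]
      have := Real.exp_one_lt_d9
      linarith
    have hlqL : Real.log q ≤ L := Real.log_le_log (by linarith) (by exact_mod_cast hqn)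
    have hllq0 : 0 ≤ Real.log (Real.log q) := Real.log_nonneg hlq1
    have hllq : Real.log (Real.log q) ≤ l := Real.log_le_log (by linarith) hlqL
    have h3 : 0 ≤ Real.log (1 + Real.log (Real.log q)) := Real.log_nonneg (by linarith)
    have h5 : Real.log (1 + Real.log (Real.log q)) ≤ Real.log (1 + l) :=
      Real.log_le_log (by linarith) (by linarith)
    rw [hV]
    gcongr
  have hHp : HasHad (p + 1) := hasHad_paley hp hp4
  refine ⟨n - (p + 1), ?_, ?_⟩
  · rw [hcast]; linarith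
  · have hle : n - (p + 1) ≤ p + 1 := by
      have : (n : ℝ) < 2 * p := by linarith
      have : n < 2 * p := by exact_mod_cast this
      omega
    have hH2 : HasHad (n - (p + 1)) := by rw [hq]; exact hHq
    have h3 := glue hHp hH2 hle le_rfl
    have h5 : p + 1 + (n - (p + 1)) = n := by omega
    rw [h5] at h3
    exact h3

end Pool.Agent.H13R3.PH
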